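import Mathlib

/-!
U121/RS (helper121, MP_0430e4_lc): sets with bounded degrees in a finite graph, and the partition of
Lovász.
-/

set_option autoImplicit false
set_option linter.unusedSectionVars false

namespace Pool.Agent.U121.RS

open Finset

variable {V : Type*} [DecidableEq V]

/-- every element of `W` has at most `t` neighbours in `W` -/
def Defc (r : V → V → Prop) [DecidableRel r] (t : ℝ) (W : Finset V) : Prop :=
  ∀ v ∈ W, ((W.filter (fun y => r v y)).card : ℝ) ≤ t

variable (r : V → V → Prop) [DecidableRel r]

lemma Defc.mono {t s : ℝ} (h : t ≤ s) {W : Finset V} (hW : Defc r t W) : Defc r s W :=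
  fun v hv => (hW v hv).trans h

lemma Defc.subset {t : ℝ} {W U : Finset V} (h : U ⊆ W) (hW : Defc r t W) : Defc r t U := by
  intro v hv
  refine le_trans ?_ (hW v (h hv))
  exact_mod_cast Finset.card_le_card (Finset.filter_subset_filter _ h)

/-- the number of monochromatic pairs -/
def mono {k : ℕ} (W : Finset V) (c : V → Fin k) : ℕ :=
  ∑ x ∈ W, ∑ y ∈ W, if r x y ∧ c x = c y then 1 else 0

lemma mono_split (hs : ∀ x y, r x y → r y x) (hi : ∀ x, ¬ r x x) {k : ℕ} (W : Finset V)
    (c : V → Fin k) {v : V} (hv : v ∈ W) :
    mono r W c = 2 * (W.filter (fun y => r v y ∧ c v = c y)).card + mono r (W.erase v) c := by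
  have h1 : ∀ f : V → ℕ, ∑ y ∈ W, f y = f v + ∑ y ∈ W.erase v, f y := fun f =>
    (Finset.add_sum_erase W f hv).symm
  have h2 : (W.filter (fun y => r v y ∧ c v = c y)).card =
      ∑ y ∈ W.erase v, if r v y ∧ c v = c y then 1 else 0 := by
    rw [Finset.card_filter, h1, if_neg (fun h => hi v h.1), zero_add]
  have h3 : ∑ x ∈ W.erase v, (if r x v ∧ c x = c v then 1 else 0) =
      ∑ y ∈ W.erase v, (if r v y ∧ c v = c y then 1 else 0 : ℕ) := by
    refine Finset.sum_congr rfl fun x _ => ?_
    by_cases h : r v x ∧ c v = c x
    · rw [if_pos h, if_pos ⟨hs _ _ h.1, h.2.symm⟩]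
    · rw [if_neg h, if_neg (fun g => h ⟨hs _ _ g.1, g.2.symm⟩)]
  unfold mono
  rw [h1 (fun x => ∑ y ∈ W, if r x y ∧ c x = c y then 1 else 0), h1,
    if_neg (fun h => hi v h.1), zero_add]
  have h4 : ∑ x ∈ W.erase v, ∑ y ∈ W, (if r x y ∧ c x = c y then 1 else 0 : ℕ) =
      ∑ x ∈ W.erase v, ((if r x v ∧ c x = c v then 1 else 0) +
        ∑ y ∈ W.erase v, if r x y ∧ c x = c y then 1 else 0) :=
    Finset.sum_congr rfl fun x _ => h1 _
  rw [h4, Finset.sum_add_distrib, h3, h2]
  ring

/-- The partition of Lovász: a set with degrees at most `T` has a subset with degrees at most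
`T / k` of at least one `k`-th of its size. -/
theorem lovasz (hs : ∀ x y, r x y → r y x) (hi : ∀ x, ¬ r x x) [Fintype V] (W : Finset V) {T : ℝ}
    (hT : Defc r T W) (k : ℕ) (hk : 0 < k) :
    ∃ W' : Finset V, W' ⊆ W ∧ Defc r (T / k) W' ∧ W.card ≤ k * W'.card := by
  have : Nonempty (Fin k) := ⟨⟨0, hk⟩⟩
  have hkR : (0 : ℝ) < k := by exact_mod_cast hk
  obtain ⟨c, -, hc⟩ := Finset.exists_min_image (univ : Finset (V → Fin k)) (mono r W)
    ⟨fun _ => Classical.arbitrary _, Finset.mem_univ _⟩
  have key : ∀ v ∈ W, ((W.filter (fun y => r v y ∧ c v = c y)).card : ℝ) ≤ T / k := by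
    intro v hv
    by_contra hcon
    push Not at hcon
    -- some colour is rare in the neighbourhood
    obtain ⟨j, hj⟩ : ∃ j : Fin k, (W.filter (fun y => r v y ∧ j = c y)).card <
        (W.filter (fun y => r v y ∧ c v = c y)).card := by
      by_contra hall
      push Not at hall
      have h1 : (W.filter (fun y => r v y)).card =
          ∑ j : Fin k, (W.filter (fun y => r v y ∧ j = c y)).card := by
        rw [Finset.card_eq_sum_card_fiberwise (f := c) (t := univ) (fun x _ => Finset.mem_univ _)]
        refine Finset.sum_congr rfl fun j _ => ?_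
        rw [Finset.filter_filter]
        congr 1
        refine Finset.filter_congr fun y _ => ?_
        constructor
        · exact fun h => ⟨h.1, h.2.symm⟩
        · exact fun h => ⟨h.1, h.2.symm⟩
      have h2 : k * (W.filter (fun y => r v y ∧ c v = c y)).card ≤
          (W.filter (fun y => r v y)).card := by
        rw [h1]
        calc k * (W.filter (fun y => r v y ∧ c v = c y)).card
            = ∑ _j : Fin k, (W.filter (fun y => r v y ∧ c v = c y)).card := by
              rw [Finset.sum_const, Finset.card_univ, Fintype.card_fin, smul_eq_mul]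
          _ ≤ _ := Finset.sum_le_sum fun j _ => hall j
      have h3 : (k : ℝ) * ((W.filter (fun y => r v y ∧ c v = c y)).card : ℝ) ≤ T := by
        refine le_trans ?_ (hT v hv)
        exact_mod_cast h2
      rw [div_lt_iff₀ hkR] at hcon
      linarith
    have h1 := hc (Function.update c v j) (Finset.mem_univ _)
    rw [mono_split r hs hi W c hv, mono_split r hs hi W (Function.update c v j) hv] at h1
    have h2 : mono r (W.erase v) (Function.update c v j) = mono r (W.erase v) c := by
      unfold mono
      refine Finset.sum_congr rfl fun x hx => Finset.sum_congr rfl fun y hy => ?_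
      rw [Function.update_of_ne (Finset.ne_of_mem_erase hx),
        Function.update_of_ne (Finset.ne_of_mem_erase hy)]
    have h3 : (W.filter (fun y => r v y ∧ Function.update c v j v = Function.update c v j y)) =
        W.filter (fun y => r v y ∧ j = c y) := by
      refine Finset.filter_congr fun y _ => ?_
      rw [Function.update_self]
      constructor
      · rintro ⟨h4, h5⟩
        refine ⟨h4, ?_⟩
        have h6 : y ≠ v := by
          rintro rfl
          exact hi _ h4
        rwa [Function.update_of_ne h6] at h5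
      · rintro ⟨h4, h5⟩
        refine ⟨h4, ?_⟩
        have h6 : y ≠ v := by
          rintro rfl
          exact hi _ h4
        rwa [Function.update_of_ne h6]
    rw [h2, h3] at h1
    omega
  -- the largest colour class
  have hsum : W.card = ∑ j : Fin k, (W.filter (fun y => c y = j)).card :=
    Finset.card_eq_sum_card_fiberwise (fun x _ => Finset.mem_univ _)
  obtain ⟨j, hj⟩ : ∃ j : Fin k, W.card ≤ k * (W.filter (fun y => c y = j)).card := by
    by_contra hall
    push Not at hall
    have h1 : ∑ j : Fin k, (k * (W.filter (fun y => c y = j)).card) < ∑ _j : Fin k, W.card :=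
      Finset.sum_lt_sum_of_nonempty Finset.univ_nonempty fun j _ => hall j
    rw [← Finset.mul_sum, ← hsum, Finset.sum_const, Finset.card_univ, Fintype.card_fin,
      smul_eq_mul] at h1
    exact lt_irrefl _ h1
  refine ⟨W.filter (fun y => c y = j), Finset.filter_subset _ _, ?_, hj⟩
  intro v hv
  rw [Finset.mem_filter] at hv
  refine le_trans ?_ (key v hv.1)
  rw [Finset.filter_filter]
  exact_mod_cast Finset.card_le_card (fun y hy => by
    rw [Finset.mem_filter] at hy ⊢
    exact ⟨hy.1, hy.2.2, by rw [hv.2, hy.2.1]⟩)

end Pool.Agent.U121.RS
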