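import Mathlib
import Pool.Agent.U121.RS.Part
import Pool.Agent.Y570.LS.Ent
import Pool.Agent.TH41.BL.CH7
import Pool.Agent.TH41.BL.DEL

/-!
U121/RS (helper121, MP_0430e4_lc): the spectral bound for sets of words in which every word has few
others at distance less than `d`.
-/

set_option autoImplicit false
set_option linter.unusedSectionVars false

namespace Pool.Agent.U121.RS

open Finset Pool.Agent.TH41.BL Pool.Agent.Y570.LS

/-- distinct words at distance less than `d` -/
def near {n : ℕ} (d : ℕ) (x y : Fin n → Bool) : Prop := y ≠ x ∧ hammingDist x y < d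

instance {n : ℕ} (d : ℕ) : DecidableRel (near (n := n) d) := fun x y => by
  unfold near
  infer_instance

lemma near_symm {n : ℕ} (d : ℕ) (x y : Fin n → Bool) (h : near d x y) : near d y x :=
  ⟨h.1.symm, by rw [hammingDist_comm]; exact h.2⟩

lemma near_irrefl {n : ℕ} (d : ℕ) (x : Fin n → Bool) : ¬ near d x x := fun h => h.1 rfl

/-- the square of a Krawtchouk value -/
lemma kr_sq {n r j : ℕ} (hr : r ≤ n) (hj : j ≤ n) :
    (n.choose j : ℝ) * (kr n r j : ℝ) ^ 2 ≤ 2 ^ n * n.choose r := by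
  have h1 := parseval n (fun w => if w = r then 1 else 0)
  have h2 := ipr_single hj (tr n (fun w => if w = r then 1 else 0))
  rw [h1] at h2
  have h3 : ipr n (fun w => if w = r then 1 else 0) (fun w => if w = r then 1 else 0) =
      n.choose r := by
    unfold ipr
    rw [Finset.sum_eq_single r]
    · simp
    · intro w _ hw
      simp only [if_neg hw]
      ring
    · intro h
      exact absurd (Finset.mem_range.2 (Nat.lt_succ_of_le hr)) h
  have h4 : tr n (fun w => if w = r then 1 else 0) j = (√2 ^ n)⁻¹ * (kr n r j : ℝ) := by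
    unfold tr
    rw [Finset.sum_eq_single r]
    · simp
    · intro w _ hw
      simp only [if_neg hw]
      ring
    · intro h
      exact absurd (Finset.mem_range.2 (Nat.lt_succ_of_le hr)) h
  rw [h3, h4, mul_pow, inv_pow, ← pow_mul, mul_comm n 2, pow_mul, Real.sq_sqrt (by norm_num)] at h2
  have h5 : (0 : ℝ) < 2 ^ n := by positivity
  have h6 := mul_le_mul_of_nonneg_left h2 h5.le
  calc (n.choose j : ℝ) * (kr n r j : ℝ) ^ 2 = 2 ^ n * ((n.choose j : ℝ) *
        ((2 ^ n)⁻¹ * (kr n r j : ℝ) ^ 2)) := by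
        field_simp
    _ ≤ _ := h6

/-- positivity below the first zero -/
lemma kr_nonneg {n j r : ℕ} (hj : 2 * j ≤ n) (hr : 2 * r ≤ n)
    (h : ∀ w : ℕ, w + 2 ≤ r → 4 * (((w : ℝ) + 1) * ((n : ℝ) - w)) ≤ ((n : ℝ) - 2 * j) ^ 2) :
    0 ≤ (kr n r j : ℝ) := by
  have hjn : j ≤ n := by omega
  have hn2 : (2 : ℝ) * j ≤ n := by exact_mod_cast hj
  obtain ⟨a, ha⟩ : ∃ a : ℝ, a = (n : ℝ) - 2 * j := ⟨_, rfl⟩
  have ha0 : 0 ≤ a := by rw [ha]; linarith
  rw [← ha] at h
  have hrec := fun w => (kr_rec n j hjn w).1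
  have h1 := (kr_rec n j hjn 0).2
  rw [← ha] at h1
  have h0 : (kr n 0 j : ℝ) = 1 := by simp [kr]
  have key : ∀ w, w + 1 ≤ r → 0 ≤ (kr n w j : ℝ) ∧
      a * (kr n w j : ℝ) ≤ 2 * (w + 1) * (kr n (w + 1) j : ℝ) := by
    intro w
    induction w with
    | zero =>
      intro _
      rw [h0, zero_add, h1, h0]
      refine ⟨zero_le_one, ?_⟩
      push_cast
      linarith
    | succ w ih =>
      intro hw
      obtain ⟨i1, i2⟩ := ih (by omega)
      have hh := h w (by omega)
      have hwn : (0 : ℝ) ≤ (n : ℝ) - w := by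
        have : (w : ℝ) ≤ n := by exact_mod_cast (by omega : w ≤ n)
        linarith
      have hap : 0 < a := by
        rcases ha0.lt_or_eq with g | g
        · exact g
        · exfalso
          have := h 0 (by omega)
          rw [← g] at this
          push_cast at this
          have h5 : (1 : ℝ) ≤ n := by exact_mod_cast (by omega : 1 ≤ n)
          nlinarith
      have u1 : 0 ≤ (kr n (w + 1) j : ℝ) := by
        have : 0 ≤ 2 * ((w : ℝ) + 1) * (kr n (w + 1) j : ℝ) := le_trans (by positivity) i2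
        by_contra hcon
        push Not at hcon
        nlinarith [Nat.cast_nonneg (α := ℝ) w]
      refine ⟨u1, ?_⟩
      have hR := hrec w
      rw [← ha] at hR
      have h5 : a * (((n : ℝ) - w) * (kr n w j : ℝ)) ≤ a * (a / 2 * (kr n (w + 1) j : ℝ)) := by
        calc a * (((n : ℝ) - w) * (kr n w j : ℝ)) = ((n : ℝ) - w) * (a * (kr n w j : ℝ)) := by ring
          _ ≤ ((n : ℝ) - w) * (2 * (w + 1) * (kr n (w + 1) j : ℝ)) :=
              mul_le_mul_of_nonneg_left i2 hwn
          _ = (4 * (((w : ℝ) + 1) * ((n : ℝ) - w))) / 2 * (kr n (w + 1) j : ℝ) := by ring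
          _ ≤ a ^ 2 / 2 * (kr n (w + 1) j : ℝ) := by
              refine mul_le_mul_of_nonneg_right ?_ u1
              linarith
          _ = _ := by ring
      have h6 := le_of_mul_le_mul_left h5 hap
      push_cast
      linarith
  rcases Nat.eq_zero_or_pos r with g | g
  · rw [g, h0]
    exact zero_le_one
  · obtain ⟨w, rfl⟩ : ∃ w, r = w + 1 := ⟨r - 1, by omega⟩
    obtain ⟨k1, k2⟩ := key w le_rfl
    have : 0 ≤ 2 * ((w : ℝ) + 1) * (kr n (w + 1) j : ℝ) := le_trans (by positivity) k2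
    by_contra hcon
    push Not at hcon
    nlinarith [Nat.cast_nonneg (α := ℝ) w]

/-- the lower bound for the values of a Krawtchouk polynomial of even degree -/
lemma kr_lower {n r j₀ : ℕ} (hev : Even r) (hr : 2 * r ≤ n) (hj₀ : 2 * j₀ ≤ n)
    (h : ∀ j : ℕ, j < j₀ → ∀ w : ℕ, w + 2 ≤ r →
      4 * (((w : ℝ) + 1) * ((n : ℝ) - w)) ≤ ((n : ℝ) - 2 * j) ^ 2) {j : ℕ} (hj : j ≤ n) :
    -√(2 ^ n * n.choose r / n.choose j₀) ≤ (kr n r j : ℝ) := by
  have hc : (0 : ℝ) < n.choose j₀ := by exact_mod_cast Nat.choose_pos (by omega)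
  wlog hjn : 2 * j ≤ n generalizing j with H
  · have h1 := H (j := n - j) (Nat.sub_le _ _) (by omega)
    rw [KRAf.kr_refl n r j hj, hev.neg_one_pow, one_mul] at h1
    exact h1
  rcases Nat.lt_or_ge j j₀ with g | g
  · have h1 := kr_nonneg hjn hr (h j g)
    have h2 := Real.sqrt_nonneg (2 ^ n * n.choose r / n.choose j₀)
    linarith
  · have h1 := kr_sq (r := r) (by omega : r ≤ n) hj
    have h2 : (n.choose j₀ : ℝ) ≤ n.choose j := by
      exact_mod_cast choose_mid g (by omega)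
    have h3 : (kr n r j : ℝ) ^ 2 ≤ 2 ^ n * n.choose r / n.choose j₀ := by
      rw [le_div_iff₀ hc]
      nlinarith [sq_nonneg (kr n r j : ℝ)]
    exact (Real.abs_le_sqrt h3 |> abs_le.1).1

/-- the spectral bound -/
theorem spectral {n d r j₀ : ℕ} (hev : Even r) (hr0 : 0 < r) (hr : 2 * r ≤ n) (hrd : r < d)
    (hj₀ : 2 * j₀ ≤ n)
    (h : ∀ j : ℕ, j < j₀ → ∀ w : ℕ, w + 2 ≤ r →
      4 * (((w : ℝ) + 1) * ((n : ℝ) - w)) ≤ ((n : ℝ) - 2 * j) ^ 2)
    {t : ℝ} (ht : 0 ≤ t) {W : Finset (Fin n → Bool)} (hW : Defc (near d) t W) :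
    (W.card : ℝ) * n.choose r ≤ 2 ^ n * (t + √(2 ^ n * n.choose r / n.choose j₀)) := by
  rcases W.eq_empty_or_nonempty with rfl | hne
  · simp only [Finset.card_empty, Nat.cast_zero, zero_mul]
    positivity
  obtain ⟨κ, hκ⟩ : ∃ κ : ℝ, κ = √(2 ^ n * n.choose r / n.choose j₀) := ⟨_, rfl⟩
  rw [← hκ]
  have hWc : (0 : ℝ) < W.card := by exact_mod_cast hne.card_pos
  have hle : ∀ x y : Fin n → Bool, hammingDist x y ≤ n := fun x y =>
    hammingDist_le_card_fintype.trans (by simp)
  have hk0 : ∀ w, (kr n 0 w : ℝ) = 1 := by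
    intro w
    simp [kr]
  obtain ⟨Mj, hMj⟩ : ∃ Mj : ℕ → ℝ, Mj = fun j => ∑ x ∈ W, ∑ y ∈ W,
      (kr n j (hammingDist x y) : ℝ) := ⟨_, rfl⟩
  have hM : ∀ j, Mj j = ∑ x ∈ W, ∑ y ∈ W, (kr n j (hammingDist x y) : ℝ) := fun j => by rw [hMj]
  have hM0 : ∀ j, 0 ≤ Mj j := fun j => by
    rw [hM]
    exact DELf.kr_pos_sum CH7f.ch W j
  -- exchange of summation
  have hex : ∀ i : ℕ, ∑ j ∈ range (n + 1), (kr n i j : ℝ) * Mj j =
      ∑ x ∈ W, ∑ y ∈ W, if i = hammingDist x y then (2 : ℝ) ^ n else 0 := by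
    intro i
    simp_rw [hM, Finset.mul_sum]
    rw [Finset.sum_comm]
    refine Finset.sum_congr rfl fun x _ => ?_
    rw [Finset.sum_comm]
    refine Finset.sum_congr rfl fun y _ => ?_
    exact KRAf.inv n i _ (hle x y)
  have h1 := hex r
  have h2 := hex 0
  simp only [hk0, one_mul] at h2
  have h3 : ∑ x ∈ W, ∑ y ∈ W, (if 0 = hammingDist x y then (2 : ℝ) ^ n else 0) =
      2 ^ n * W.card := by
    have e : ∀ x ∈ W, ∑ y ∈ W, (if 0 = hammingDist x y then (2 : ℝ) ^ n else 0) = 2 ^ n := by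
      intro x hx
      rw [Finset.sum_eq_single x]
      · rw [hammingDist_self, if_pos rfl]
      · intro y _ hy
        rw [if_neg]
        intro g
        exact hy (eq_of_hammingDist_eq_zero g.symm).symm
      · intro g
        exact absurd hx g
    rw [Finset.sum_congr rfl e, Finset.sum_const, nsmul_eq_mul, mul_comm]
  rw [h3] at h2
  have h4 : ∑ x ∈ W, ∑ y ∈ W, (if r = hammingDist x y then (2 : ℝ) ^ n else 0) ≤
      2 ^ n * t * W.card := by
    have e : ∀ x ∈ W, ∑ y ∈ W, (if r = hammingDist x y then (2 : ℝ) ^ n else 0) ≤ 2 ^ n * t := by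
      intro x hx
      rw [← Finset.sum_filter, Finset.sum_const, nsmul_eq_mul, mul_comm]
      refine mul_le_mul_of_nonneg_left ?_ (by positivity)
      refine le_trans ?_ (hW x hx)
      exact_mod_cast Finset.card_le_card (fun y hy => by
        rw [Finset.mem_filter] at hy ⊢
        refine ⟨hy.1, ?_, ?_⟩
        · rintro rfl
          rw [hammingDist_self] at hy
          omega
        · omega)
    refine (Finset.sum_le_sum e).trans (le_of_eq ?_)
    rw [Finset.sum_const, nsmul_eq_mul]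
    ring
  rw [← h1] at h4
  -- the lower bound
  have h5 : (n.choose r : ℝ) * (W.card : ℝ) ^ 2 - κ * (2 ^ n * W.card) ≤
      ∑ j ∈ range (n + 1), (kr n r j : ℝ) * Mj j := by
    rw [Finset.sum_range_succ', KRAf.kr_zero_right]
    have e0 : Mj 0 = (W.card : ℝ) ^ 2 := by
      rw [hM]
      simp_rw [hk0]
      simp only [Finset.sum_const, nsmul_eq_mul, mul_one]
      ring
    rw [e0]
    have e1 : -κ * ∑ j ∈ range n, Mj (j + 1) ≤ ∑ j ∈ range n, (kr n r (j + 1) : ℝ) * Mj (j + 1) := by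
      rw [Finset.mul_sum]
      refine Finset.sum_le_sum fun j hj => ?_
      refine mul_le_mul_of_nonneg_right ?_ (hM0 _)
      rw [hκ]
      exact kr_lower hev hr hj₀ h (by have := Finset.mem_range.1 hj; omega)
    have e2 : ∑ j ∈ range n, Mj (j + 1) ≤ 2 ^ n * W.card := by
      rw [← h2, Finset.sum_range_succ']
      have := hM0 0
      linarith
    have e3 : 0 ≤ κ := by rw [hκ]; exact Real.sqrt_nonneg _
    have e4 := mul_le_mul_of_nonneg_left e2 e3
    push_cast
    linarith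
  have h6 : (W.card : ℝ) * ((W.card : ℝ) * n.choose r) ≤ W.card * (2 ^ n * (t + κ)) := by
    nlinarith
  exact le_of_mul_le_mul_left h6 hWc

end Pool.Agent.U121.RS
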