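import Mathlib
import Pool.Agent.U121.RS.Part

/-!
U121/RS (helper121, MP_0430e4_lc): the partition function of the independent sets of a finite graph
is controlled by the sizes of the sets with bounded degrees.
-/

set_option autoImplicit false
set_option linter.unusedSectionVars false

namespace Pool.Agent.U121.RS

open Finset

variable {V : Type*} [DecidableEq V]
variable (r : V → V → Prop) [DecidableRel r]

/-- independent sets -/
def Indep (I : Finset V) : Prop := ∀ x ∈ I, ∀ y ∈ I, ¬ r x y

instance : DecidablePred (Indep r) := fun I => by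
  unfold Indep
  infer_instance

lemma Indep.subset {I J : Finset V} (h : I ⊆ J) (hJ : Indep r J) : Indep r I :=
  fun x hx y hy => hJ x (h hx) y (h hy)

/-- the partition function -/
noncomputable def Z (lam : ℝ) (W : Finset V) : ℝ :=
  ∑ I ∈ W.powerset, if Indep r I then lam ^ I.card else 0

lemma Z_empty (lam : ℝ) : Z r lam ∅ = 1 := by
  unfold Z
  rw [Finset.powerset_empty, Finset.sum_singleton, if_pos]
  · simp
  · intro x hx
    simp at hx

lemma Z_insert {lam : ℝ} (h0 : 0 ≤ lam) {s : Finset V} {v : V} (hv : v ∉ s) :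
    Z r lam (insert v s) ≤ Z r lam s + lam * Z r lam (s.filter (fun y => ¬ r v y)) := by
  unfold Z
  rw [Finset.sum_powerset_insert hv]
  refine add_le_add le_rfl ?_
  rw [Finset.mul_sum]
  have hsub : (s.filter (fun y => ¬ r v y)).powerset ⊆ s.powerset :=
    Finset.powerset_mono.2 (Finset.filter_subset _ _)
  rw [← Finset.sum_subset (f := fun t => if Indep r (insert v t) then lam ^ (insert v t).card
    else 0) hsub]
  · refine Finset.sum_le_sum fun t ht => ?_
    have hts : t ⊆ s := (Finset.mem_powerset.1 ht).trans (Finset.filter_subset _ _)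
    have hvt : v ∉ t := fun h => hv (hts h)
    by_cases h : Indep r (insert v t)
    · rw [if_pos h, if_pos (h.subset r (Finset.subset_insert _ _)),
        Finset.card_insert_of_notMem hvt, pow_succ, mul_comm]
    · rw [if_neg h]
      split_ifs
      · positivity
      · simp
  · intro t ht ht2
    rw [if_neg]
    intro h
    apply ht2
    rw [Finset.mem_powerset] at ht ⊢
    intro y hy
    rw [Finset.mem_filter]
    exact ⟨ht hy, h v (Finset.mem_insert_self _ _) y (Finset.mem_insert_of_mem hy)⟩

/-- the exponent -/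
noncomputable def ff (p M Λ x : ℝ) : ℝ := p * M * Λ * Real.log (1 + x / M)

lemma ff_diff {p M Λ : ℝ} (hp : 0 ≤ p) (hM : 0 < M) (hΛ : 0 ≤ Λ) {x y : ℝ} (hy : 0 ≤ y)
    (hxy : y ≤ x) : p * Λ * (x - y) / (1 + x / M) ≤ ff p M Λ x - ff p M Λ y := by
  unfold ff
  have hy1 : 0 < 1 + y / M := by positivity
  have hx1 : 0 < 1 + x / M := by
    have : 0 ≤ x := hy.trans hxy
    positivity
  have h1 := Real.one_sub_inv_le_log_of_pos (div_pos hx1 hy1)
  rw [Real.log_div hx1.ne' hy1.ne', inv_div] at h1
  have h2 : 1 - (1 + y / M) / (1 + x / M) = (x - y) / M / (1 + x / M) := by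
    rw [eq_div_iff hx1.ne', sub_mul, div_mul_cancel₀ _ hx1.ne']
    ring
  rw [h2] at h1
  have h3 : 0 ≤ p * M * Λ := by positivity
  have h4 := mul_le_mul_of_nonneg_left h1 h3
  calc p * Λ * (x - y) / (1 + x / M) = p * M * Λ * ((x - y) / M / (1 + x / M)) := by
        field_simp
    _ ≤ _ := h4
    _ = _ := by ring

lemma ff_mono {p M Λ : ℝ} (hp : 0 ≤ p) (hM : 0 < M) (hΛ : 0 ≤ Λ) {x y : ℝ} (hy : 0 ≤ y)
    (hxy : y ≤ x) : ff p M Λ y ≤ ff p M Λ x := by
  have h1 := ff_diff hp hM hΛ hy hxy
  have h2 : 0 ≤ p * Λ * (x - y) / (1 + x / M) := by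
    have : 0 ≤ x := hy.trans hxy
    have : 0 ≤ x - y := by linarith
    positivity
  linarith

/-- The partition function at the activity `4 p` is bounded in terms of the sets with degrees at
most `1 / p`. -/
theorem Z_le [Fintype V] (hs : ∀ x y, r x y → r y x) (hi : ∀ x, ¬ r x x) {p : ℝ} (hp : 0 < p)
    {m₀ : ℕ} (hm₀ : 0 < m₀) (hmax : ∀ W, Defc r (1 / p) W → W.card ≤ m₀) {Λ : ℝ} (hΛ : 8 ≤ Λ) :
    ∀ W : Finset V, (W.card : ℝ) ≤ Real.exp (Λ / 2) →
      Z r (4 * p) W ≤ Real.exp (ff p (2 * m₀) Λ W.card) := by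
  have hmR : (1 : ℝ) ≤ m₀ := by exact_mod_cast hm₀
  have hM : (0 : ℝ) < 2 * m₀ := by linarith
  have hM1 : (1 : ℝ) ≤ 2 * m₀ := by linarith
  have hΛ0 : 0 ≤ Λ := by linarith
  obtain ⟨M, hMdef⟩ : ∃ M : ℝ, M = 2 * m₀ := ⟨_, rfl⟩
  rw [← hMdef] at hM hM1 ⊢
  intro W
  induction hn : W.card using Nat.strong_induction_on generalizing W with
  | _ n ih =>
  intro hWn
  rcases Nat.eq_zero_or_pos n with h0 | h0
  · rw [h0] at hn ⊢
    rw [Finset.card_eq_zero.1 hn, Z_empty]
    unfold ff
    simp
  obtain ⟨m, rfl⟩ : ∃ m, n = m + 1 := ⟨n - 1, by omega⟩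
  -- the step for a vertex
  have step : ∀ v ∈ W, Z r (4 * p) W ≤ Real.exp (ff p M Λ m) + 4 * p *
      Real.exp (ff p M Λ (m - (W.filter (fun y => r v y)).card)) := by
    intro v hv
    have hW : W = insert v (W.erase v) := (Finset.insert_erase hv).symm
    have hc1 : (W.erase v).card = m := by
      rw [Finset.card_erase_of_mem hv, hn]
      omega
    have hmle : (m : ℝ) ≤ Real.exp (Λ / 2) := by
      refine le_trans ?_ hWn
      push_cast
      linarith
    have h1 := ih m (by omega) (W.erase v) hc1 hmle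
    have hf : (W.erase v).filter (fun y => r v y) = W.filter (fun y => r v y) := by
      ext y
      rw [Finset.mem_filter, Finset.mem_filter, Finset.mem_erase]
      constructor
      · exact fun h => ⟨h.1.2, h.2⟩
      · rintro ⟨h2, h3⟩
        refine ⟨⟨?_, h2⟩, h3⟩
        rintro rfl
        exact hi _ h3
    have h2 := Finset.card_filter_add_card_filter_not (s := W.erase v) (fun y => r v y)
    rw [hf, hc1] at h2
    have hle : ((W.erase v).filter (fun y => ¬ r v y)).card ≤ m := by omega
    have h3 := ih _ (by omega) ((W.erase v).filter (fun y => ¬ r v y)) rfl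
      (le_trans (by exact_mod_cast hle) hmle)
    have h4 : (((W.erase v).filter (fun y => ¬ r v y)).card : ℝ) =
        m - (W.filter (fun y => r v y)).card := by
      rw [eq_sub_iff_add_eq]
      rw [add_comm]
      exact_mod_cast h2
    rw [h4] at h3
    have h5 := Z_insert r (lam := 4 * p) (by positivity) (Finset.notMem_erase v W)
    rw [← hW] at h5
    have h6 := mul_le_mul_of_nonneg_left h3 (by positivity : (0 : ℝ) ≤ 4 * p)
    linarith
  have hmn : (0 : ℝ) ≤ m := Nat.cast_nonneg m
  have hdiff := ff_diff hp.le hM hΛ0 hmn (by linarith : (m : ℝ) ≤ m + 1)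
  have hcast : ((m + 1 : ℕ) : ℝ) = m + 1 := by push_cast; ring
  rw [hcast] at hWn ⊢
  have hden : (0 : ℝ) < 1 + (m + 1) / M := by positivity
  -- it is enough to bound the second summand
  have fin : ∀ x : ℝ, Z r (4 * p) W ≤ Real.exp (ff p M Λ m) * (1 + x) →
      x ≤ p * Λ / (1 + (m + 1) / M) → Z r (4 * p) W ≤ Real.exp (ff p M Λ (m + 1)) := by
    intro x h1 h2
    refine h1.trans ?_
    have h3 : 1 + x ≤ Real.exp (ff p M Λ (m + 1) - ff p M Λ m) := by
      have h4 := Real.add_one_le_exp (ff p M Λ (m + 1) - ff p M Λ m)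
      have h5 : p * Λ * (m + 1 - m) / (1 + (m + 1) / M) = p * Λ / (1 + (m + 1) / M) := by ring
      rw [h5] at hdiff
      linarith
    calc Real.exp (ff p M Λ m) * (1 + x)
        ≤ Real.exp (ff p M Λ m) * Real.exp (ff p M Λ (m + 1) - ff p M Λ m) :=
          mul_le_mul_of_nonneg_left h3 (Real.exp_pos _).le
      _ = _ := by
          rw [← Real.exp_add]
          congr 1
          ring
  rcases le_or_gt ((m : ℝ) + 1) M with hA | hB
  · -- few vertices
    obtain ⟨v, hv⟩ : ∃ v, v ∈ W := Finset.card_pos.1 (by omega)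
    have h1 := step v hv
    have h2 : ff p M Λ (m - (W.filter (fun y => r v y)).card) ≤ ff p M Λ m := by
      refine ff_mono hp.le hM hΛ0 ?_ ?_
      · rw [sub_nonneg]
        have : (W.filter (fun y => r v y)).card ≤ m := by
          have h3 : W.filter (fun y => r v y) ⊆ W.erase v := by
            intro y hy
            rw [Finset.mem_filter] at hy
            rw [Finset.mem_erase]
            refine ⟨?_, hy.1⟩
            rintro rfl
            exact hi _ hy.2
          have h4 := Finset.card_le_card h3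
          rw [Finset.card_erase_of_mem hv, hn] at h4
          omega
        exact_mod_cast this
      · have : (0 : ℝ) ≤ (W.filter (fun y => r v y)).card := Nat.cast_nonneg _
        linarith
    have h3 := mul_le_mul_of_nonneg_left (Real.exp_le_exp.2 h2) (by positivity : (0 : ℝ) ≤ 4 * p)
    refine fin (4 * p) (by linarith) ?_
    rw [le_div_iff₀ hden]
    have h4 : ((m : ℝ) + 1) / M ≤ 1 := by rw [div_le_one hM]; exact hA
    nlinarith
  · -- many vertices: one of them has many neighbours
    have hL : 1 < ((m : ℝ) + 1) / M := by rwa [one_lt_div hM]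
    obtain ⟨L, hLdef⟩ : ∃ L : ℝ, L = ((m : ℝ) + 1) / M := ⟨_, rfl⟩
    rw [← hLdef] at hL hden fin
    have hLM : L * M = m + 1 := by rw [hLdef]; field_simp
    obtain ⟨v, hv, hdeg⟩ : ∃ v ∈ W, L / p < ((W.filter (fun y => r v y)).card : ℝ) := by
      by_contra hcon
      push Not at hcon
      obtain ⟨W', hW', hd, hcard⟩ := lovasz r hs hi W (T := L / p) hcon ⌈L⌉₊
        (Nat.ceil_pos.2 (by linarith))
      have hceil : L ≤ (⌈L⌉₊ : ℝ) := Nat.le_ceil L
      have hceil2 : (⌈L⌉₊ : ℝ) < L + 1 := Nat.ceil_lt_add_one (by linarith)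
      have h1 : W'.card ≤ m₀ := by
        refine hmax W' (hd.mono r ?_)
        rw [div_div, div_le_div_iff₀ (mul_pos hp (by linarith)) hp]
        nlinarith
      have h2 : W.card ≤ ⌈L⌉₊ * m₀ := hcard.trans (Nat.mul_le_mul_left _ h1)
      have h3 : ((m : ℝ) + 1) ≤ (⌈L⌉₊ : ℝ) * m₀ := by
        rw [hn] at h2
        exact_mod_cast h2
      rw [← hLM, hMdef] at h3
      nlinarith
    have h1 := step v hv
    have hdm : ((W.filter (fun y => r v y)).card : ℝ) ≤ m := by
      have : (W.filter (fun y => r v y)).card ≤ m := by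
        have h3 : W.filter (fun y => r v y) ⊆ W.erase v := by
          intro y hy
          rw [Finset.mem_filter] at hy
          rw [Finset.mem_erase]
          refine ⟨?_, hy.1⟩
          rintro rfl
          exact hi _ hy.2
        have h4 := Finset.card_le_card h3
        rw [Finset.card_erase_of_mem hv, hn] at h4
        omega
      exact_mod_cast this
    obtain ⟨g, hg⟩ : ∃ g : ℝ, g = ((W.filter (fun y => r v y)).card : ℝ) := ⟨_, rfl⟩
    rw [← hg] at hdeg h1 hdm
    have hg0 : 0 < g := lt_trans (by positivity) hdeg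
    have h2 := ff_diff hp.le hM hΛ0 (sub_nonneg.2 hdm) (by linarith : (m : ℝ) - g ≤ m)
    have h3 : Λ / 2 ≤ p * Λ * (m - (m - g)) / (1 + m / M) := by
      rw [le_div_iff₀ (by positivity)]
      have e1 : (m : ℝ) / M ≤ L := by
        rw [div_le_iff₀ hM]
        linarith
      have e2 : L < p * g := by
        rw [div_lt_iff₀ hp] at hdeg
        linarith
      have e3 : (1 : ℝ) + m / M ≤ 2 * (p * g) := by linarith
      calc Λ / 2 * (1 + m / M) ≤ Λ / 2 * (2 * (p * g)) :=
            mul_le_mul_of_nonneg_left e3 (by positivity)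
        _ = p * Λ * (m - (m - g)) := by ring
    have h4 : Real.exp (ff p M Λ (m - g)) ≤ Real.exp (ff p M Λ m) * Real.exp (-(Λ / 2)) := by
      rw [← Real.exp_add]
      apply Real.exp_le_exp.2
      linarith
    refine fin (4 * p * Real.exp (-(Λ / 2))) ?_ ?_
    · have h5 := mul_le_mul_of_nonneg_left h4 (by positivity : (0 : ℝ) ≤ 4 * p)
      calc Z r (4 * p) W ≤ _ := h1
        _ ≤ Real.exp (ff p M Λ m) + 4 * p * (Real.exp (ff p M Λ m) * Real.exp (-(Λ / 2))) := by
            linarith
        _ = _ := by ring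
    · rw [le_div_iff₀ hden, Real.exp_neg]
      have h5 : (1 : ℝ) + L ≤ 2 * (m + 1) := by
        have : L ≤ m + 1 := by
          rw [← hLM]
          nlinarith
        linarith
      have h6 : (0 : ℝ) < Real.exp (Λ / 2) := Real.exp_pos _
      have h7 : (1 + L) * (Real.exp (Λ / 2))⁻¹ ≤ 2 := by
        rw [← div_eq_mul_inv, div_le_iff₀ h6]
        linarith
      calc 4 * p * (Real.exp (Λ / 2))⁻¹ * (1 + L) = p * 4 * ((1 + L) * (Real.exp (Λ / 2))⁻¹) := by
            ring
        _ ≤ p * 4 * 2 := mul_le_mul_of_nonneg_left h7 (by positivity)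
        _ ≤ p * Λ := by nlinarith

end Pool.Agent.U121.RS
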