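import Mathlib
import Pool.Agent.U121.RS.Gas

/-!
U121/RS (helper121, MP_0430e4_lc): random subsets of a finite set, and the largest independent
subset of a random set.
-/

set_option autoImplicit false
set_option linter.unusedSectionVars false

namespace Pool.Agent.U121.RS

open Finset

variable {V : Type*} [DecidableEq V] [Fintype V]

/-- the probability of the set `S` -/
noncomputable def wt (p : ℝ) (S : Finset V) : ℝ :=
  p ^ S.card * (1 - p) ^ (Fintype.card V - S.card)

open Classical in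
/-- the probability of the event `E` -/
noncomputable def prob (p : ℝ) (E : Finset V → Prop) : ℝ := ∑ S, if E S then wt p S else 0

lemma wt_nonneg {p : ℝ} (h0 : 0 ≤ p) (h1 : p ≤ 1) (S : Finset V) : 0 ≤ wt p S := by
  unfold wt
  have : 0 ≤ 1 - p := by linarith
  positivity

/-- the sum of the weights of the sets that contain `T` -/
lemma sum_wt (p : ℝ) (T : Finset V) :
    ∑ S : Finset V, (if T ⊆ S then wt p S else 0) = p ^ T.card := by
  have h1 := Finset.prod_add (fun _ : V => p) (fun i => if i ∈ T then 0 else 1 - p) univ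
  have h2 : ∏ i : V, (p + if i ∈ T then 0 else 1 - p) = p ^ T.card := by
    have e : ∀ i : V, (p + if i ∈ T then 0 else 1 - p) = if i ∈ T then p else 1 := by
      intro i
      split_ifs <;> ring
    rw [Finset.prod_congr rfl fun i _ => e i, Finset.prod_ite, Finset.prod_const,
      Finset.prod_const_one, mul_one, Finset.filter_mem_eq_inter, Finset.univ_inter]
  rw [h2] at h1
  rw [h1, Finset.powerset_univ]
  refine Finset.sum_congr rfl fun S _ => ?_
  rw [Finset.prod_const]
  by_cases h : T ⊆ S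
  · rw [if_pos h]
    unfold wt
    congr 1
    rw [Finset.prod_congr rfl (g := fun _ => 1 - p), Finset.prod_const, Finset.card_sdiff,
      Finset.inter_univ, Finset.card_univ]
    intro i hi
    rw [Finset.mem_sdiff] at hi
    rw [if_neg (fun g => hi.2 (h g))]
  · rw [if_neg h]
    rw [Finset.not_subset] at h
    obtain ⟨i, hi1, hi2⟩ := h
    rw [Finset.prod_eq_zero (i := i), mul_zero]
    · rw [Finset.mem_sdiff]
      exact ⟨Finset.mem_univ _, hi2⟩
    · rw [if_pos hi1]

lemma sum_wt_all (p : ℝ) : ∑ S : Finset V, wt p S = 1 := by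
  have h := sum_wt (V := V) p ∅
  simpa using h

lemma prob_nonneg {p : ℝ} (h0 : 0 ≤ p) (h1 : p ≤ 1) (E : Finset V → Prop) : 0 ≤ prob p E := by
  unfold prob
  refine Finset.sum_nonneg fun S _ => ?_
  split_ifs
  · exact wt_nonneg h0 h1 S
  · exact le_rfl

lemma prob_mono {p : ℝ} (h0 : 0 ≤ p) (h1 : p ≤ 1) {E F : Finset V → Prop}
    (h : ∀ S, E S → F S) : prob p E ≤ prob p F := by
  unfold prob
  refine Finset.sum_le_sum fun S _ => ?_
  by_cases hE : E S
  · rw [if_pos hE, if_pos (h S hE)]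
  · rw [if_neg hE]
    split_ifs
    · exact wt_nonneg h0 h1 S
    · exact le_rfl

lemma prob_or {p : ℝ} (h0 : 0 ≤ p) (h1 : p ≤ 1) (E F : Finset V → Prop) :
    prob p (fun S => E S ∨ F S) ≤ prob p E + prob p F := by
  unfold prob
  rw [← Finset.sum_add_distrib]
  refine Finset.sum_le_sum fun S _ => ?_
  have := wt_nonneg h0 h1 S
  by_cases hE : E S <;> by_cases hF : F S <;> simp [hE, hF, this]

lemma prob_not {p : ℝ} (E : Finset V → Prop) :
    prob p (fun S => ¬ E S) = 1 - prob p E := by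
  rw [eq_sub_iff_add_eq, ← sum_wt_all (V := V) p]
  unfold prob
  rw [← Finset.sum_add_distrib]
  refine Finset.sum_congr rfl fun S _ => ?_
  by_cases hE : E S <;> simp [hE]

lemma prob_le_one {p : ℝ} (h0 : 0 ≤ p) (h1 : p ≤ 1) (E : Finset V → Prop) : prob p E ≤ 1 := by
  have h2 := prob_nonneg h0 h1 (fun S => ¬ E S)
  rw [prob_not] at h2
  linarith

/-- Markov's inequality -/
lemma markov {p : ℝ} (h0 : 0 ≤ p) (h1 : p ≤ 1) (f : Finset V → ℝ) (hf : ∀ S, 0 ≤ f S) {a : ℝ}
    (E : Finset V → Prop) (hE : ∀ S, E S → a ≤ f S) :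
    a * prob p E ≤ ∑ S, wt p S * f S := by
  unfold prob
  rw [Finset.mul_sum]
  refine Finset.sum_le_sum fun S _ => ?_
  have h2 := wt_nonneg h0 h1 S
  by_cases h : E S
  · rw [if_pos h, mul_comm]
    exact mul_le_mul_of_nonneg_left (hE S h) h2
  · rw [if_neg h, mul_zero]
    exact mul_nonneg h2 (hf S)

variable (r : V → V → Prop) [DecidableRel r]

/-- the upper tail of the largest independent subset of a random set -/
theorem upper_nat {p : ℝ} (h0 : 0 ≤ p) (h1 : p ≤ 1) (k : ℕ) :
    4 ^ k * prob p (fun S : Finset V => ∃ I ⊆ S, Indep r I ∧ k ≤ I.card) ≤ Z r (4 * p) univ := by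
  have h2 : prob p (fun S : Finset V => ∃ I ⊆ S, Indep r I ∧ k ≤ I.card) ≤
      ∑ I : Finset V, if (Indep r I ∧ I.card = k) then p ^ k else 0 := by
    have h3 : ∀ I : Finset V, (if (Indep r I ∧ I.card = k) then p ^ k else 0) =
        ∑ S : Finset V, if (Indep r I ∧ I.card = k) then (if I ⊆ S then wt p S else 0) else 0 := by
      intro I
      by_cases h : Indep r I ∧ I.card = k
      · simp only [if_pos h]
        rw [sum_wt, h.2]
      · simp only [if_neg h]
        rw [Finset.sum_const_zero]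
    rw [Finset.sum_congr rfl fun I _ => h3 I, Finset.sum_comm]
    unfold prob
    refine Finset.sum_le_sum fun S _ => ?_
    have hw := wt_nonneg h0 h1 S
    have hnn : ∀ I ∈ (univ : Finset (Finset V)), 0 ≤ (if (Indep r I ∧ I.card = k) then
        (if I ⊆ S then wt p S else 0) else 0) := by
      intro I _
      split_ifs <;> first | exact hw | exact le_rfl
    by_cases hE : ∃ I ⊆ S, Indep r I ∧ k ≤ I.card
    · rw [if_pos hE]
      obtain ⟨I, hI, hInd, hk⟩ := hE
      obtain ⟨J, hJ, hJc⟩ := Finset.exists_subset_card_eq hk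
      have h4 := Finset.single_le_sum hnn (Finset.mem_univ J)
      refine le_trans (le_of_eq ?_) h4
      rw [if_pos ⟨hInd.subset r hJ, hJc⟩, if_pos (hJ.trans hI)]
    · rw [if_neg hE]
      exact Finset.sum_nonneg hnn
  refine (mul_le_mul_of_nonneg_left h2 (by positivity)).trans ?_
  unfold Z
  rw [Finset.mul_sum, Finset.powerset_univ]
  refine Finset.sum_le_sum fun I _ => ?_
  by_cases h : Indep r I
  · rw [if_pos h]
    by_cases h5 : I.card = k
    · rw [if_pos ⟨h, h5⟩, h5, mul_pow]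
    · rw [if_neg (fun g => h5 g.2), mul_zero]
      positivity
  · rw [if_neg h, if_neg (fun g => h g.1), mul_zero]

theorem upper {p : ℝ} (h0 : 0 ≤ p) (h1 : p ≤ 1) (K : ℝ) :
    Real.exp (K * Real.log 4) * prob p (fun S : Finset V => ∃ I ⊆ S, Indep r I ∧ K ≤ I.card) ≤
      Z r (4 * p) univ := by
  have h2 := upper_nat r h0 h1 ⌈K⌉₊
  refine le_trans ?_ h2
  have h3 : prob p (fun S : Finset V => ∃ I ⊆ S, Indep r I ∧ K ≤ I.card) ≤
      prob p (fun S : Finset V => ∃ I ⊆ S, Indep r I ∧ ⌈K⌉₊ ≤ I.card) := by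
    refine prob_mono h0 h1 ?_
    rintro S ⟨I, a, b, c⟩
    exact ⟨I, a, b, Nat.ceil_le.2 c⟩
  refine mul_le_mul ?_ h3 (prob_nonneg h0 h1 _) (by positivity)
  have h4 : (4 : ℝ) ^ ⌈K⌉₊ = Real.exp (⌈K⌉₊ * Real.log 4) := by
    rw [mul_comm, Real.exp_mul, Real.exp_log (by norm_num), Real.rpow_natCast]
  rw [h4]
  apply Real.exp_le_exp.2
  exact mul_le_mul_of_nonneg_right (Nat.le_ceil K) (Real.log_nonneg (by norm_num))

/-! ### the lower tail -/

lemma E_pair (p : ℝ) {x y : V} (h : x ≠ y) :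
    ∑ S : Finset V, wt p S * ((if x ∈ S then 1 else 0) * (if y ∈ S then 1 else 0)) = p ^ 2 := by
  have h1 := sum_wt (V := V) p {x, y}
  rw [Finset.card_pair h] at h1
  rw [← h1]
  refine Finset.sum_congr rfl fun S _ => ?_
  by_cases hx : x ∈ S <;> by_cases hy : y ∈ S <;>
    simp [hx, hy, Finset.insert_subset_iff, Finset.singleton_subset_iff]

lemma E_one (p : ℝ) (x : V) : ∑ S : Finset V, wt p S * (if x ∈ S then 1 else 0) = p := by
  have h1 := sum_wt (V := V) p {x}
  rw [Finset.card_singleton, pow_one] at h1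
  refine Eq.trans ?_ h1
  refine Finset.sum_congr rfl fun S _ => ?_
  by_cases hx : x ∈ S <;> simp [hx]

/-- the number of elements of `W` in `S` -/
lemma count_eq (W S : Finset V) : ((W ∩ S).card : ℝ) = ∑ x ∈ W, if x ∈ S then 1 else 0 := by
  rw [← Finset.filter_mem_eq_inter, Finset.card_filter]
  push_cast
  rfl

lemma E_count (p : ℝ) (W : Finset V) : ∑ S : Finset V, wt p S * ((W ∩ S).card : ℝ) = p * W.card := by
  simp_rw [count_eq, Finset.mul_sum]
  rw [Finset.sum_comm, Finset.sum_congr rfl fun x _ => E_one p x, Finset.sum_const, nsmul_eq_mul,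
    mul_comm]

lemma E_count_sq {p : ℝ} (h0 : 0 ≤ p) (W : Finset V) :
    ∑ S : Finset V, wt p S * ((W ∩ S).card : ℝ) ^ 2 ≤ p * W.card + (p * W.card) ^ 2 := by
  have h1 : ∀ S : Finset V, wt p S * ((W ∩ S).card : ℝ) ^ 2 = ∑ x ∈ W, ∑ y ∈ W,
      wt p S * ((if x ∈ S then 1 else 0) * (if y ∈ S then 1 else 0)) := by
    intro S
    rw [count_eq, sq, Finset.sum_mul_sum, Finset.mul_sum]
    exact Finset.sum_congr rfl fun x _ => Finset.mul_sum _ _ _
  rw [Finset.sum_congr rfl fun S _ => h1 S, Finset.sum_comm]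
  have h2 : ∀ x ∈ W, ∑ S : Finset V, ∑ y ∈ W,
      wt p S * ((if x ∈ S then 1 else 0) * (if y ∈ S then 1 else 0)) ≤ p + p ^ 2 * W.card := by
    intro x hx
    rw [Finset.sum_comm, ← Finset.add_sum_erase W _ hx]
    have e1 : ∑ S : Finset V, wt p S * ((if x ∈ S then 1 else 0) * (if x ∈ S then 1 else 0)) =
        p := by
      refine Eq.trans ?_ (E_one p x)
      refine Finset.sum_congr rfl fun S _ => ?_
      split_ifs <;> ring
    rw [e1]
    refine add_le_add le_rfl ?_
    calc ∑ y ∈ W.erase x, ∑ S : Finset V,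
          wt p S * ((if x ∈ S then 1 else 0) * (if y ∈ S then 1 else 0))
        = ∑ y ∈ W.erase x, p ^ 2 :=
          Finset.sum_congr rfl fun y hy => E_pair p (Finset.ne_of_mem_erase hy).symm
      _ = p ^ 2 * (W.erase x).card := by rw [Finset.sum_const, nsmul_eq_mul, mul_comm]
      _ ≤ p ^ 2 * W.card := by
          refine mul_le_mul_of_nonneg_left ?_ (by positivity)
          exact_mod_cast Finset.card_le_card (Finset.erase_subset _ _)
  refine (Finset.sum_le_sum h2).trans (le_of_eq ?_)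
  rw [Finset.sum_const, nsmul_eq_mul]
  ring

/-- Chebyshev's inequality for the number of elements -/
lemma cheb {p : ℝ} (h0 : 0 < p) (h1 : p ≤ 1) (W : Finset V) (hW : 0 < W.card) :
    prob p (fun S : Finset V => ((W ∩ S).card : ℝ) < 3 / 4 * (p * W.card)) ≤
      16 / (p * W.card) := by
  have hm : (0 : ℝ) < W.card := by exact_mod_cast hW
  have hpm : 0 < p * W.card := mul_pos h0 hm
  have h2 := markov (V := V) h0.le h1 (fun S => (((W ∩ S).card : ℝ) - p * W.card) ^ 2)
    (fun S => sq_nonneg _) (a := (p * W.card / 4) ^ 2)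
    (fun S : Finset V => ((W ∩ S).card : ℝ) < 3 / 4 * (p * W.card)) (by
      intro S hS
      nlinarith)
  have h3 : ∑ S : Finset V, wt p S * (((W ∩ S).card : ℝ) - p * W.card) ^ 2 ≤ p * W.card := by
    have e : ∀ S : Finset V, wt p S * (((W ∩ S).card : ℝ) - p * W.card) ^ 2 =
        wt p S * ((W ∩ S).card : ℝ) ^ 2 - 2 * (p * W.card) * (wt p S * ((W ∩ S).card : ℝ)) +
          (p * W.card) ^ 2 * wt p S := by
      intro S; ring
    rw [Finset.sum_congr rfl fun S _ => e S, Finset.sum_add_distrib, Finset.sum_sub_distrib,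
      ← Finset.mul_sum, ← Finset.mul_sum, E_count, sum_wt_all]
    have := E_count_sq h0.le W
    linarith
  have h4 := h2.trans h3
  rw [le_div_iff₀ hpm]
  have h5 : prob p (fun S : Finset V => ((W ∩ S).card : ℝ) < 3 / 4 * (p * W.card)) *
      (p * W.card) * (p * W.card) ≤ 16 * (p * W.card) := by linarith
  exact le_of_mul_le_mul_right h5 hpm

/-- the number of pairs of neighbours in `W ∩ S` -/
def pairs (W S : Finset V) : ℕ :=
  ∑ x ∈ W, ∑ y ∈ W, if r x y ∧ x ∈ S ∧ y ∈ S then 1 else 0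

lemma E_pairs {p : ℝ} (hi : ∀ x, ¬ r x x) {t : ℝ} {W : Finset V}
    (hW : Defc r t W) : ∑ S : Finset V, wt p S * (pairs r W S : ℝ) ≤ p ^ 2 * (t * W.card) := by
  have h1 : ∀ S : Finset V, wt p S * (pairs r W S : ℝ) = ∑ x ∈ W, ∑ y ∈ W,
      (if r x y then wt p S * ((if x ∈ S then 1 else 0) * (if y ∈ S then 1 else 0)) else 0) := by
    intro S
    unfold pairs
    push_cast
    rw [Finset.mul_sum]
    refine Finset.sum_congr rfl fun x _ => ?_
    rw [Finset.mul_sum]
    refine Finset.sum_congr rfl fun y _ => ?_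
    by_cases h2 : r x y <;> by_cases h3 : x ∈ S <;> by_cases h4 : y ∈ S <;> simp [h2, h3, h4]
  rw [Finset.sum_congr rfl fun S _ => h1 S, Finset.sum_comm]
  have h2 : ∀ x ∈ W, ∑ S : Finset V, ∑ y ∈ W,
      (if r x y then wt p S * ((if x ∈ S then 1 else 0) * (if y ∈ S then 1 else 0)) else 0) ≤
      p ^ 2 * t := by
    intro x hx
    rw [Finset.sum_comm]
    have e : ∀ y ∈ W, ∑ S : Finset V,
        (if r x y then wt p S * ((if x ∈ S then 1 else 0) * (if y ∈ S then 1 else 0)) else 0) =
        if r x y then p ^ 2 else 0 := by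
      intro y _
      by_cases h : r x y
      · simp only [if_pos h]
        refine E_pair p ?_
        rintro rfl
        exact hi _ h
      · simp only [if_neg h]
        rw [Finset.sum_const_zero]
    rw [Finset.sum_congr rfl e, ← Finset.sum_filter, Finset.sum_const, nsmul_eq_mul, mul_comm]
    exact mul_le_mul_of_nonneg_left (hW x hx) (by positivity)
  refine (Finset.sum_le_sum h2).trans (le_of_eq ?_)
  rw [Finset.sum_const, nsmul_eq_mul]
  ring

/-- removing the elements with a neighbour -/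
lemma exists_indep (W S : Finset V) : ∃ I : Finset V, I ⊆ S ∧ Indep r I ∧
    ((W ∩ S).card : ℝ) - pairs r W S ≤ I.card := by
  refine ⟨(W ∩ S).filter (fun x => ∀ y ∈ W ∩ S, ¬ r x y), ?_, ?_, ?_⟩
  · intro x hx
    rw [Finset.mem_filter, Finset.mem_inter] at hx
    exact hx.1.2
  · intro x hx y hy
    rw [Finset.mem_filter] at hx hy
    exact hx.2 y hy.1
  · have h1 := Finset.card_filter_add_card_filter_not (s := W ∩ S)
      (fun x => ∀ y ∈ W ∩ S, ¬ r x y)
    have h2 : ((W ∩ S).filter (fun x => ¬ ∀ y ∈ W ∩ S, ¬ r x y)).card ≤ pairs r W S := by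
      unfold pairs
      rw [Finset.card_filter]
      calc ∑ x ∈ W ∩ S, (if ¬ ∀ y ∈ W ∩ S, ¬ r x y then 1 else 0)
          ≤ ∑ x ∈ W ∩ S, ∑ y ∈ W, (if r x y ∧ x ∈ S ∧ y ∈ S then 1 else 0) := by
            refine Finset.sum_le_sum fun x hx => ?_
            rw [Finset.mem_inter] at hx
            by_cases h : ∀ y ∈ W ∩ S, ¬ r x y
            · rw [if_neg (not_not.2 h)]
              exact Nat.zero_le _
            · rw [if_pos h]
              push Not at h
              obtain ⟨y, hy, hxy⟩ := h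
              rw [Finset.mem_inter] at hy
              refine le_trans (le_of_eq ?_) (Finset.single_le_sum (fun y _ => Nat.zero_le _) hy.1)
              rw [if_pos ⟨hxy, hx.2, hy.2⟩]
        _ ≤ _ := Finset.sum_le_sum_of_subset (Finset.inter_subset_left)
    have h3 : ((W ∩ S).card : ℝ) = ((W ∩ S).filter (fun x => ∀ y ∈ W ∩ S, ¬ r x y)).card +
        ((W ∩ S).filter (fun x => ¬ ∀ y ∈ W ∩ S, ¬ r x y)).card := by exact_mod_cast h1.symm
    have h4 : (((W ∩ S).filter (fun x => ¬ ∀ y ∈ W ∩ S, ¬ r x y)).card : ℝ) ≤ pairs r W S := by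
      exact_mod_cast h2
    linarith

/-- the lower tail of the largest independent subset of a random set -/
theorem lower (hs : ∀ x y, r x y → r y x) (hi : ∀ x, ¬ r x x) {p : ℝ} (h0 : 0 < p) (h1 : p ≤ 1)
    {W : Finset V} (hW : Defc r (1 / p) W) (hWc : 0 < W.card) {K : ℕ} (hK : 0 < K) :
    prob p (fun S : Finset V => ¬ ∃ I ⊆ S, Indep r I ∧ p * W.card / (2 * K) ≤ I.card) ≤
      16 * K / (p * W.card) + 4 / K := by
  obtain ⟨W', hW', hd, hcard⟩ := lovasz r hs hi W hW K hK
  have hKR : (0 : ℝ) < K := by exact_mod_cast hK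
  have hW0 : 0 < W'.card := by
    rcases Nat.eq_zero_or_pos W'.card with h | h
    · rw [h, mul_zero] at hcard
      omega
    · exact h
  have hm : (0 : ℝ) < W'.card := by exact_mod_cast hW0
  have hWR : (0 : ℝ) < W.card := by exact_mod_cast hWc
  have hpm : 0 < p * W'.card := mul_pos h0 hm
  have hcardR : (W.card : ℝ) ≤ K * W'.card := by exact_mod_cast hcard
  have b1 := cheb h0 h1 W' hW0
  have b2 : prob p (fun S : Finset V => 1 / 4 * (p * W'.card) ≤ (pairs r W' S : ℝ)) ≤ 4 / K := by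
    have h2 := markov (V := V) h0.le h1 (fun S => (pairs r W' S : ℝ)) (fun S => Nat.cast_nonneg _)
      (a := 1 / 4 * (p * W'.card)) (fun S => 1 / 4 * (p * W'.card) ≤ (pairs r W' S : ℝ))
      (fun S hS => hS)
    have h3 := h2.trans (E_pairs r hi hd)
    have h4 : p ^ 2 * (1 / p / K * W'.card) = 1 / K * (p * W'.card) := by
      field_simp
    rw [h4] at h3
    rw [le_div_iff₀ hKR]
    have h5 : prob p (fun S : Finset V => 1 / 4 * (p * W'.card) ≤ (pairs r W' S : ℝ)) * K *
        (p * W'.card) ≤ 4 * (p * W'.card) := by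
      have h6 := mul_le_mul_of_nonneg_left h3 (by positivity : (0 : ℝ) ≤ 4 * K)
      have h7 : 4 * (K : ℝ) * (1 / K * (p * W'.card)) = 4 * (p * W'.card) := by
        field_simp
      linarith
    exact le_of_mul_le_mul_right h5 hpm
  have b3 : 16 / (p * (W'.card : ℝ)) ≤ 16 * K / (p * W.card) := by
    rw [div_le_div_iff₀ hpm (mul_pos h0 hWR)]
    nlinarith
  have b4 : prob p (fun S : Finset V => ¬ ∃ I ⊆ S, Indep r I ∧ p * W.card / (2 * K) ≤ I.card) ≤
      prob p (fun S : Finset V => ((W' ∩ S).card : ℝ) < 3 / 4 * (p * W'.card) ∨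
        1 / 4 * (p * W'.card) ≤ (pairs r W' S : ℝ)) := by
    refine prob_mono h0.le h1 ?_
    intro S hS
    by_contra hcon
    push Not at hcon
    apply hS
    obtain ⟨I, hI, hInd, hc⟩ := exists_indep r W' S
    refine ⟨I, hI, hInd, le_trans ?_ hc⟩
    have h2 : p * W.card / (2 * K) ≤ 1 / 2 * (p * W'.card) := by
      rw [div_le_iff₀ (by positivity)]
      nlinarith
    linarith
  have b5 := prob_or (V := V) h0.le h1 (fun S => ((W' ∩ S).card : ℝ) < 3 / 4 * (p * W'.card))
    (fun S => 1 / 4 * (p * W'.card) ≤ (pairs r W' S : ℝ))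
  linarith

end Pool.Agent.U121.RS
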