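import Mathlib
import Pool.Agent.U121.RS.Prob
import Pool.Agent.U121.RS.Cube

/-!
U121/RS (helper121, MP_0430e4_lc): the largest code in a random set of words and the largest set of
words with few close pairs.
-/

set_option autoImplicit false
set_option linter.unusedSectionVars false

namespace Pool.Agent.U121.RS

open Finset

/-- the largest size of a set of words in which every word has at most `t` others at distance less
than `d` -/
noncomputable def DD (n d : ℕ) (t : ℝ) : ℕ :=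
  sSup {k | ∃ W : Finset (Fin n → Bool), Defc (near d) t W ∧ W.card = k}

/-- the largest size of a code with minimum distance at least `d` in the set `S` -/
noncomputable def AA {n : ℕ} (S : Finset (Fin n → Bool)) (d : ℕ) : ℕ :=
  sSup {k | ∃ C : Finset (Fin n → Bool), C ⊆ S ∧
    (∀ x ∈ C, ∀ y ∈ C, x ≠ y → d ≤ hammingDist x y) ∧ C.card = k}

lemma card_cube (n : ℕ) : Fintype.card (Fin n → Bool) = 2 ^ n := by simp

lemma DD_bdd (n d : ℕ) (t : ℝ) :
    BddAbove {k | ∃ W : Finset (Fin n → Bool), Defc (near d) t W ∧ W.card = k} := by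
  refine ⟨2 ^ n, ?_⟩
  rintro k ⟨C, -, rfl⟩
  rw [← card_cube]
  exact Finset.card_le_univ C

lemma le_DD {n d : ℕ} {t : ℝ} {W : Finset (Fin n → Bool)} (h : Defc (near d) t W) :
    W.card ≤ DD n d t := le_csSup (DD_bdd n d t) ⟨W, h, rfl⟩

lemma exists_DD (n d : ℕ) (t : ℝ) :
    ∃ W : Finset (Fin n → Bool), Defc (near d) t W ∧ W.card = DD n d t :=
  Nat.sSup_mem (s := {k | ∃ W : Finset (Fin n → Bool), Defc (near d) t W ∧ W.card = k})
    ⟨0, ∅, by intro x hx; simp at hx, rfl⟩ (DD_bdd n d t)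

lemma DD_le (n d : ℕ) (t : ℝ) : DD n d t ≤ 2 ^ n := by
  obtain ⟨W, -, hW⟩ := exists_DD n d t
  rw [← hW, ← card_cube]
  exact Finset.card_le_univ W

lemma DD_mono {n d : ℕ} {s t : ℝ} (h : s ≤ t) : DD n d s ≤ DD n d t := by
  obtain ⟨W, h1, hW⟩ := exists_DD n d s
  rw [← hW]
  exact le_DD (h1.mono _ h)

/-- sets with at most `t` elements -/
lemma le_DD_of_le {n d : ℕ} {t : ℝ} (ht : t ≤ 2 ^ n) : t ≤ DD n d t := by
  have h1 : ⌈t⌉₊ ≤ (univ : Finset (Fin n → Bool)).card := by
    rw [Finset.card_univ, card_cube, Nat.ceil_le]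
    exact_mod_cast ht
  obtain ⟨W, -, hW⟩ := Finset.exists_subset_card_eq h1
  have h2 : Defc (near d) t W := by
    intro v hv
    have h3 : (W.filter (fun y => near d v y)).card < W.card := by
      refine Finset.card_lt_card (Finset.filter_ssubset.2 ⟨v, hv, near_irrefl d v⟩)
    have h4 : (W.filter (fun y => near d v y)).card < ⌈t⌉₊ := by rw [← hW]; exact h3
    exact (Nat.lt_ceil.1 h4).le
  have h5 := le_DD h2
  rw [hW] at h5
  exact (Nat.le_ceil t).trans (by exact_mod_cast h5)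

lemma DD_pos {n d : ℕ} {t : ℝ} (ht : 0 ≤ t) : 0 < DD n d t := by
  have h : Defc (near d) t ({fun _ => false} : Finset (Fin n → Bool)) := by
    intro v hv
    rw [Finset.mem_singleton] at hv
    rw [Finset.filter_singleton, if_neg]
    · simpa using ht
    · rw [hv]
      exact near_irrefl d _
  have h2 := le_DD h
  rw [Finset.card_singleton] at h2
  exact h2

lemma indep_iff {n : ℕ} (d : ℕ) (C : Finset (Fin n → Bool)) :
    Indep (near d) C ↔ ∀ x ∈ C, ∀ y ∈ C, x ≠ y → d ≤ hammingDist x y := by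
  unfold Indep near
  constructor
  · intro h x hx y hy hxy
    have := h x hx y hy
    push Not at this
    exact this hxy.symm
  · intro h x hx y hy hxy
    have := h x hx y hy hxy.1.symm
    omega

lemma AA_bdd {n : ℕ} (S : Finset (Fin n → Bool)) (d : ℕ) :
    BddAbove {k | ∃ C : Finset (Fin n → Bool), C ⊆ S ∧
      (∀ x ∈ C, ∀ y ∈ C, x ≠ y → d ≤ hammingDist x y) ∧ C.card = k} := by
  refine ⟨2 ^ n, ?_⟩
  rintro k ⟨C, -, -, rfl⟩
  rw [← card_cube]
  exact Finset.card_le_univ C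

lemma le_AA {n : ℕ} {S I : Finset (Fin n → Bool)} {d : ℕ} (h : I ⊆ S) (hI : Indep (near d) I) :
    I.card ≤ AA S d := le_csSup (AA_bdd S d) ⟨I, h, (indep_iff d I).1 hI, rfl⟩

lemma exists_AA {n : ℕ} (S : Finset (Fin n → Bool)) (d : ℕ) :
    ∃ I : Finset (Fin n → Bool), I ⊆ S ∧ Indep (near d) I ∧ I.card = AA S d := by
  obtain ⟨C, h1, h2, h3⟩ := Nat.sSup_mem (s := {k | ∃ C : Finset (Fin n → Bool), C ⊆ S ∧
      (∀ x ∈ C, ∀ y ∈ C, x ≠ y → d ≤ hammingDist x y) ∧ C.card = k})
    ⟨0, ∅, Finset.empty_subset _, by intro x hx; simp at hx, rfl⟩ (AA_bdd S d)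
  exact ⟨C, h1, (indep_iff d C).2 h2, h3⟩

/-- the upper tail -/
theorem tail_up {n d : ℕ} (hn : 1 ≤ n) {p : ℝ} (h0 : 1 ≤ p * 2 ^ n) (h1 : p ≤ 1) {c : ℝ}
    (hc : (4 * n + 16) * (n + 1) + n ≤ c * Real.log 4) :
    prob p (fun S : Finset (Fin n → Bool) => c * (p * DD n d (1 / p)) ≤ AA S d) ≤
      Real.exp (-n) := by
  have hp : 0 < p := by
    by_contra hcon
    push Not at hcon
    have : p * 2 ^ n ≤ 0 := mul_nonpos_of_nonpos_of_nonneg hcon (by positivity)
    linarith
  have hD : 1 / p ≤ DD n d (1 / p) := by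
    refine le_DD_of_le ?_
    rw [div_le_iff₀ hp]
    linarith
  have hpD : 1 ≤ p * DD n d (1 / p) := by
    rw [div_le_iff₀ hp] at hD
    linarith
  have hnR : (1 : ℝ) ≤ n := by exact_mod_cast hn
  obtain ⟨D, hDe⟩ : ∃ D : ℕ, D = DD n d (1 / p) := ⟨_, rfl⟩
  have hD0 : 0 < D := by rw [hDe]; exact DD_pos (by positivity)
  have h2 : prob p (fun S : Finset (Fin n → Bool) => c * (p * DD n d (1 / p)) ≤ AA S d) ≤
      prob p (fun S : Finset (Fin n → Bool) => ∃ I ⊆ S, Indep (near d) I ∧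
        c * (p * DD n d (1 / p)) ≤ I.card) := by
    refine prob_mono hp.le h1 ?_
    intro S hS
    obtain ⟨I, a, b, e⟩ := exists_AA S d
    exact ⟨I, a, b, by rw [e]; exact hS⟩
  have h3 := upper (near (n := n) d) hp.le h1 (c * (p * DD n d (1 / p)))
  have h4 := Z_le (near (n := n) d) (near_symm d) (near_irrefl d) hp hD0
    (fun W hW => by rw [hDe]; exact le_DD hW) (Λ := 2 * n + 8) (by linarith) univ (by
      rw [Finset.card_univ, card_cube]
      push_cast
      have e1 : (2 : ℝ) ^ n ≤ Real.exp 1 ^ n :=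
        pow_le_pow_left₀ (by norm_num) (by linarith [Real.add_one_le_exp (1 : ℝ)]) n
      refine e1.trans ?_
      rw [← Real.exp_nat_mul]
      apply Real.exp_le_exp.2
      linarith)
  rw [Finset.card_univ, card_cube] at h4
  rw [← hDe] at h3 hpD ⊢
  have hDR : (1 : ℝ) ≤ D := by exact_mod_cast hD0
  have h5 : ff p (2 * D) (2 * n + 8) ((2 ^ n : ℕ) : ℝ) ≤ (p * D) * ((4 * n + 16) * (n + 1)) := by
    unfold ff
    have e1 : Real.log (1 + ((2 ^ n : ℕ) : ℝ) / (2 * D)) ≤ n + 1 := by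
      have e2 : 1 + ((2 ^ n : ℕ) : ℝ) / (2 * D) ≤ 2 ^ (n + 1) := by
        push_cast
        have e3 : (2 : ℝ) ^ n / (2 * D) ≤ 2 ^ n := by
          refine div_le_self (by positivity) ?_
          linarith
        have e4 : (1 : ℝ) ≤ 2 ^ n := one_le_pow₀ (by norm_num)
        rw [pow_succ]
        linarith
      have e5 : 0 < 1 + ((2 ^ n : ℕ) : ℝ) / (2 * D) := by positivity
      refine (Real.log_le_log e5 e2).trans ?_
      rw [Real.log_pow]
      push_cast
      have e6 : Real.log 2 ≤ 1 := by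
        have := Real.log_two_lt_d9
        linarith
      nlinarith
    have e7 : 0 ≤ p * (2 * D) * (2 * n + 8) := by positivity
    calc p * (2 * D) * (2 * n + 8) * Real.log (1 + ((2 ^ n : ℕ) : ℝ) / (2 * D))
        ≤ p * (2 * D) * (2 * n + 8) * (n + 1) := mul_le_mul_of_nonneg_left e1 e7
      _ = _ := by ring
  have h6 := h3.trans (h4.trans (Real.exp_le_exp.2 h5))
  refine (by rw [hDe] : prob p (fun S : Finset (Fin n → Bool) => c * (p * D) ≤ AA S d) =
    prob p (fun S : Finset (Fin n → Bool) => c * (p * DD n d (1 / p)) ≤ AA S d)).le.trans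
    (h2.trans ?_)
  rw [← hDe]
  have h7 : 0 < Real.exp (c * (p * D) * Real.log 4) := Real.exp_pos _
  rw [← le_div_iff₀' h7, ← Real.exp_sub] at h6
  refine h6.trans (Real.exp_le_exp.2 ?_)
  have h8 := mul_le_mul_of_nonneg_left hc (by positivity : 0 ≤ p * (D : ℝ))
  have h9 : (n : ℝ) ≤ p * D * n := by nlinarith
  nlinarith

/-- the lower tail -/
theorem tail_low {n d : ℕ} {p : ℝ} (h0 : 0 < p) (h1 : p ≤ 1) {K : ℕ} (hK : 0 < K) :
    prob p (fun S : Finset (Fin n → Bool) => (AA S d : ℝ) < p * DD n d (1 / p) / (2 * K)) ≤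
      16 * K / (p * DD n d (1 / p)) + 4 / K := by
  obtain ⟨W, hW, hWc⟩ := exists_DD n d (1 / p)
  rw [← hWc]
  have hpos : 0 < W.card := by rw [hWc]; exact DD_pos (by positivity)
  refine le_trans ?_ (lower (near (n := n) d) (near_symm d) (near_irrefl d) h0 h1 hW hpos hK)
  refine prob_mono h0.le h1 ?_
  rintro S hS ⟨I, a, b, e⟩
  have h2 := le_AA a b
  have h3 : (I.card : ℝ) ≤ AA S d := by exact_mod_cast h2
  linarith

end Pool.Agent.U121.RS
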