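import Mathlib
import Pool.Agent.U121.RS.Tail
import Pool.Agent.Results.MP_0430e4_lc.ConstantWeightCriterion

/-!
U121/RS (helper121, MP_0430e4_lc): asymptotic estimates.
-/

set_option autoImplicit false
set_option linter.unusedSectionVars false

namespace Pool.Agent.U121.RS

open Finset Filter Pool.Agent.TH41.BL Pool.Agent.Y570.LS
open Pool.Agent.Results.MP_0430e4_lc.ConstantWeightCriterion (H H_eq' H_eq H_le_one H_cont volume
  weight tr weight_tr tr_inj logb_nonneg_nat)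

/-- the exponent of `p D(1/p)`, `p = 2 ^ (-(1 - σ) n)` -/
noncomputable def gg (n d : ℕ) (σ : ℝ) : ℝ :=
  Real.logb 2 (DD n d ((2 : ℝ) ^ ((1 - σ) * n))) / n - (1 - σ)

lemma two_rpow_pos (x : ℝ) : (0 : ℝ) < (2 : ℝ) ^ x := Real.rpow_pos_of_pos (by norm_num) x

lemma one_div_pp (σ : ℝ) (n : ℕ) : 1 / (2 : ℝ) ^ ((σ - 1) * n) = (2 : ℝ) ^ ((1 - σ) * n) := by
  rw [one_div, ← Real.rpow_neg (by norm_num)]
  congr 1
  ring

lemma pD_eq {n d : ℕ} (hn : 1 ≤ n) (σ : ℝ) :
    (2 : ℝ) ^ ((σ - 1) * n) * DD n d ((2 : ℝ) ^ ((1 - σ) * n)) = (2 : ℝ) ^ (gg n d σ * n) := by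
  have hnR : (0 : ℝ) < n := by exact_mod_cast hn
  have hD : (0 : ℝ) < DD n d ((2 : ℝ) ^ ((1 - σ) * n)) := by
    exact_mod_cast DD_pos (two_rpow_pos _).le
  have h1 : gg n d σ * n = (σ - 1) * n +
      Real.logb 2 (DD n d ((2 : ℝ) ^ ((1 - σ) * n))) := by
    unfold gg
    field_simp
    ring
  rw [h1, Real.rpow_add (by norm_num), Real.rpow_logb (by norm_num) (by norm_num) hD]

lemma one_le_pD {n d : ℕ} {σ : ℝ} (h0 : 0 ≤ σ) :
    1 ≤ (2 : ℝ) ^ ((σ - 1) * n) * DD n d ((2 : ℝ) ^ ((1 - σ) * n)) := by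
  have h1 : (2 : ℝ) ^ ((1 - σ) * n) ≤ DD n d ((2 : ℝ) ^ ((1 - σ) * n)) := by
    apply le_DD_of_le
    rw [← Real.rpow_natCast 2 n]
    apply Real.rpow_le_rpow_of_exponent_le (by norm_num)
    have : (0 : ℝ) ≤ n := Nat.cast_nonneg n
    nlinarith
  have h2 := mul_le_mul_of_nonneg_left h1 (two_rpow_pos ((σ - 1) * n)).le
  refine le_trans (le_of_eq ?_) h2
  rw [← Real.rpow_add (by norm_num)]
  have : (σ - 1) * n + (1 - σ) * n = 0 := by ring
  rw [this, Real.rpow_zero]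

/-- growth of the exponential function -/
lemma ev_growth {ε : ℝ} (hε : 0 < ε) (A B : ℝ) :
    ∀ᶠ n : ℕ in atTop, A * (n : ℝ) ^ 2 + B ≤ (2 : ℝ) ^ (ε * n) := by
  have hb : 0 < ε * Real.log 2 := mul_pos hε (Real.log_pos (by norm_num))
  have h1 := (tendsto_exp_mul_div_rpow_atTop 3 (ε * Real.log 2) hb).comp
    tendsto_natCast_atTop_atTop
  filter_upwards [h1.eventually_ge_atTop (|A| + |B|), eventually_ge_atTop 1] with n hn hn1
  have hnR : (1 : ℝ) ≤ n := by exact_mod_cast hn1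
  have hn3 : (0 : ℝ) < (n : ℝ) ^ (3 : ℝ) := by positivity
  simp only [Function.comp] at hn
  rw [le_div_iff₀ hn3] at hn
  have h2 : (2 : ℝ) ^ (ε * n) = Real.exp (ε * Real.log 2 * n) := by
    rw [Real.rpow_def_of_pos (by norm_num)]
    congr 1
    ring
  rw [h2]
  refine le_trans ?_ hn
  have h3 : (n : ℝ) ^ (3 : ℝ) = (n : ℝ) ^ 3 := by
    rw [← Real.rpow_natCast]
    norm_num
  rw [h3, add_mul]
  have e1 : A * (n : ℝ) ^ 2 ≤ |A| * (n : ℝ) ^ 3 := by
    have a1 : (n : ℝ) ^ 2 ≤ (n : ℝ) ^ 3 := pow_le_pow_right₀ hnR (by norm_num)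
    calc A * (n : ℝ) ^ 2 ≤ |A| * (n : ℝ) ^ 2 := mul_le_mul_of_nonneg_right (le_abs_self A)
          (by positivity)
      _ ≤ _ := mul_le_mul_of_nonneg_left a1 (abs_nonneg A)
  have e2 : B ≤ |B| * (n : ℝ) ^ 3 := by
    have a1 : (1 : ℝ) ≤ (n : ℝ) ^ 3 := one_le_pow₀ hnR
    calc B ≤ |B| * 1 := by rw [mul_one]; exact le_abs_self B
      _ ≤ _ := mul_le_mul_of_nonneg_left a1 (abs_nonneg B)
  linarith

/-- concentration, uniformly in the distance and in the density -/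
theorem conc {ε : ℝ} (hε : 0 < ε) : ∃ n₀ : ℕ, ∀ n ≥ n₀, ∀ d : ℕ, ∀ σ : ℝ, 0 ≤ σ → σ ≤ 1 →
    1 - ε ≤ prob ((2 : ℝ) ^ ((σ - 1) * n)) (fun S : Finset (Fin n → Bool) =>
      |Real.logb 2 (AA S d) / n - gg n d σ| ≤ ε) := by
  have hlog4 : 0 < Real.log 4 := Real.log_pos (by norm_num)
  have t1 : ∀ᶠ n : ℕ in atTop, Real.exp (-(n : ℝ)) ≤ ε / 2 := by
    have := (Real.tendsto_exp_neg_atTop_nhds_zero.comp tendsto_natCast_atTop_atTop).eventually
      (gt_mem_nhds (half_pos hε))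
    filter_upwards [this] with n hn
    exact hn.le
  have t2 : ∀ᶠ n : ℕ in atTop, 4 / (n : ℝ) ≤ ε / 4 := by
    have := (tendsto_const_div_atTop_nhds_zero_nat (4 : ℝ)).eventually
      (gt_mem_nhds (by positivity : 0 < ε / 4))
    filter_upwards [this] with n hn
    exact hn.le
  obtain ⟨n₀, hn₀⟩ := eventually_atTop.1 ((((ev_growth hε (41 / Real.log 4) 0).and
    (ev_growth hε 2 0)).and ((ev_growth hε (64 / ε) 0).and t1)).and
    (t2.and (eventually_ge_atTop 1)))
  refine ⟨n₀, fun n hn d σ h0 h1 => ?_⟩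
  obtain ⟨⟨⟨g1, g2⟩, ⟨g3, g4⟩⟩, ⟨g5, g6⟩⟩ := hn₀ n hn
  have hnR : (1 : ℝ) ≤ n := by exact_mod_cast g6
  have hn0 : (0 : ℝ) < n := by linarith
  have hsq : (n : ℝ) ≤ (n : ℝ) ^ 2 := by nlinarith
  obtain ⟨p, hp⟩ : ∃ p : ℝ, p = (2 : ℝ) ^ ((σ - 1) * n) := ⟨_, rfl⟩
  have hp0 : 0 < p := by rw [hp]; exact two_rpow_pos _
  have hp1 : p ≤ 1 := by
    rw [hp]
    apply Real.rpow_le_one_of_one_le_of_nonpos (by norm_num)
    nlinarith
  have hpi : 1 / p = (2 : ℝ) ^ ((1 - σ) * n) := by rw [hp]; exact one_div_pp σ n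
  have hp2 : 1 ≤ p * 2 ^ n := by
    rw [hp, ← Real.rpow_natCast 2 n, ← Real.rpow_add (by norm_num)]
    apply Real.one_le_rpow (by norm_num)
    nlinarith
  have hpD : p * DD n d (1 / p) = (2 : ℝ) ^ (gg n d σ * n) := by
    rw [hpi, hp]
    exact pD_eq g6 σ
  have hg0 : 0 ≤ gg n d σ := by
    have h2 := one_le_pD (n := n) (d := d) h0
    rw [pD_eq g6] at h2
    by_contra hcon
    push Not at hcon
    have h3 : (2 : ℝ) ^ (gg n d σ * n) < 1 :=
      Real.rpow_lt_one_of_one_lt_of_neg (by norm_num) (mul_neg_of_neg_of_pos hcon hn0)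
    linarith
  rw [← hp]
  -- the complement
  have key : prob p (fun S : Finset (Fin n → Bool) =>
      ¬ |Real.logb 2 (AA S d) / n - gg n d σ| ≤ ε) ≤ ε := by
    have up : prob p (fun S : Finset (Fin n → Bool) =>
        (2 : ℝ) ^ (ε * n) * (p * DD n d (1 / p)) ≤ AA S d) ≤ ε / 2 := by
      refine (tail_up g6 hp2 hp1 ?_).trans g4
      have e1 : (4 * (n : ℝ) + 16) * (n + 1) + n ≤ 41 * (n : ℝ) ^ 2 := by nlinarith
      refine e1.trans ?_
      have e2 := mul_le_mul_of_nonneg_right g1 hlog4.le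
      have e3 : (41 / Real.log 4 * (n : ℝ) ^ 2 + 0) * Real.log 4 = 41 * (n : ℝ) ^ 2 := by
        field_simp
        ring
      linarith
    by_cases hsmall : gg n d σ < ε
    · -- the lower bound is trivial
      refine le_trans (prob_mono hp0.le hp1 ?_) (up.trans (by linarith))
      intro S hS
      rw [not_le, lt_abs] at hS
      have h2 : 0 ≤ Real.logb 2 (AA S d : ℝ) / n :=
        div_nonneg (logb_nonneg_nat _) hn0.le
      have h3 : gg n d σ + ε < Real.logb 2 (AA S d : ℝ) / n := by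
        rcases hS with h | h <;> linarith
      rw [lt_div_iff₀ hn0] at h3
      have h4 : 0 < Real.logb 2 (AA S d : ℝ) := lt_of_le_of_lt (by positivity) h3
      have h5 : (0 : ℝ) < AA S d := by
        rcases Nat.eq_zero_or_pos (AA S d) with h | h
        · rw [h] at h4
          simp at h4
        · exact_mod_cast h
      rw [Real.lt_logb_iff_rpow_lt (by norm_num) h5] at h3
      rw [hpD, ← Real.rpow_add (by norm_num)]
      refine le_trans (le_of_eq ?_) h3.le
      congr 1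
      ring
    · push Not at hsmall
      have hbig : (2 : ℝ) ^ (ε * n) ≤ p * DD n d (1 / p) := by
        rw [hpD]
        apply Real.rpow_le_rpow_of_exponent_le (by norm_num)
        exact mul_le_mul_of_nonneg_right hsmall hn0.le
      have low : prob p (fun S : Finset (Fin n → Bool) =>
          (AA S d : ℝ) < p * DD n d (1 / p) / (2 * n)) ≤ ε / 2 := by
        refine (tail_low hp0 hp1 g6).trans ?_
        have e1 : 16 * (n : ℝ) / (p * DD n d (1 / p)) ≤ ε / 4 := by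
          have hpos : 0 < p * (DD n d (1 / p) : ℝ) := lt_of_lt_of_le (two_rpow_pos _) hbig
          rw [div_le_iff₀ hpos]
          have e2 : 64 / ε * (n : ℝ) ^ 2 ≤ p * DD n d (1 / p) := by linarith
          have e3 := mul_le_mul_of_nonneg_left e2 (by positivity : 0 ≤ ε / 4)
          have e4 : ε / 4 * (64 / ε * (n : ℝ) ^ 2) = 16 * (n : ℝ) ^ 2 := by
            field_simp
            ring
          nlinarith
        linarith
      refine le_trans (prob_mono hp0.le hp1 (F := fun S : Finset (Fin n → Bool) =>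
        (2 : ℝ) ^ (ε * n) * (p * DD n d (1 / p)) ≤ AA S d ∨
        (AA S d : ℝ) < p * DD n d (1 / p) / (2 * n)) ?_) ((prob_or hp0.le hp1 _ _).trans
          (by linarith))
      intro S hS
      rw [not_le, lt_abs] at hS
      rcases hS with h | h
      · left
        have h3 : gg n d σ + ε < Real.logb 2 (AA S d : ℝ) / n := by linarith
        rw [lt_div_iff₀ hn0] at h3
        have h4 : 0 < Real.logb 2 (AA S d : ℝ) := lt_of_le_of_lt (by positivity) h3
        have h5 : (0 : ℝ) < AA S d := by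
          rcases Nat.eq_zero_or_pos (AA S d) with h | h
          · rw [h] at h4
            simp at h4
          · exact_mod_cast h
        rw [Real.lt_logb_iff_rpow_lt (by norm_num) h5] at h3
        rw [hpD, ← Real.rpow_add (by norm_num)]
        refine le_trans (le_of_eq ?_) h3.le
        congr 1
        ring
      · right
        rw [hpD]
        rcases Nat.eq_zero_or_pos (AA S d) with h6 | h6
        · rw [h6, Nat.cast_zero]
          have := two_rpow_pos (gg n d σ * n)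
          positivity
        have h5 : (0 : ℝ) < AA S d := by exact_mod_cast h6
        have h3 : Real.logb 2 (AA S d : ℝ) / n < gg n d σ - ε := by linarith
        rw [div_lt_iff₀ hn0, Real.logb_lt_iff_lt_rpow (by norm_num) h5] at h3
        refine h3.trans_le ?_
        have e1 : (gg n d σ - ε) * n = gg n d σ * n + -(ε * n) := by ring
        rw [e1, Real.rpow_add (by norm_num), Real.rpow_neg (by norm_num), ← div_eq_mul_inv]
        refine div_le_div_of_nonneg_left (two_rpow_pos _).le (by positivity) ?_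
        nlinarith
  rw [prob_not] at key
  linarith

/-! ### the sizes of the sets with few close pairs -/

lemma degree_le {δ : ℝ} (h0 : 0 < δ) (h1 : δ ≤ 1 / 2) (n : ℕ) :
    Defc (near (n := n) ⌈δ * n⌉₊) ((2 : ℝ) ^ (H δ * n)) univ := by
  intro x _
  refine le_trans ?_ (volume h0 h1 n)
  have : ((univ : Finset (Fin n → Bool)).filter (fun y => near ⌈δ * n⌉₊ x y)).card ≤
      (univ.filter fun v : Fin n → Bool => (weight v : ℝ) ≤ δ * n).card := by
    refine Finset.card_le_card_of_injOn (tr x) ?_ ((tr_inj x).injOn)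
    intro y hy
    have hy2 : y ∈ (univ : Finset (Fin n → Bool)).filter (fun y => near ⌈δ * n⌉₊ x y) := hy
    rw [Finset.mem_filter] at hy2
    have : tr x y ∈ (univ.filter fun v : Fin n → Bool => (weight v : ℝ) ≤ δ * n) := by
      rw [Finset.mem_filter, weight_tr]
      exact ⟨Finset.mem_univ _, (Nat.lt_ceil.1 hy2.2.2).le⟩
    exact this
  exact_mod_cast this

/-- the lower bound of Gilbert and Varshamov -/
theorem gg_lower {δ : ℝ} (h0 : 0 < δ) (h1 : δ ≤ 1 / 2) {n : ℕ} (hn : 1 ≤ n) (σ : ℝ) :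
    min σ (1 - H δ) - 1 / n ≤ gg n ⌈δ * n⌉₊ σ := by
  have hnR : (0 : ℝ) < n := by exact_mod_cast hn
  obtain ⟨V, hV⟩ : ∃ V : ℝ, V = (2 : ℝ) ^ (H δ * n) := ⟨_, rfl⟩
  obtain ⟨t, ht⟩ : ∃ t : ℝ, t = (2 : ℝ) ^ ((1 - σ) * n) := ⟨_, rfl⟩
  have hV0 : 0 < V := by rw [hV]; exact two_rpow_pos _
  have ht0 : 0 < t := by rw [ht]; exact two_rpow_pos _
  have hd := degree_le h0 h1 n
  rw [← hV] at hd
  have hk : 0 < ⌈V / t⌉₊ := Nat.ceil_pos.2 (div_pos hV0 ht0)
  have hkR : (0 : ℝ) < ⌈V / t⌉₊ := by exact_mod_cast hk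
  obtain ⟨W, -, hW, hWc⟩ := lovasz (near (n := n) ⌈δ * n⌉₊) (near_symm _) (near_irrefl _) univ hd
    ⌈V / t⌉₊ hk
  have h2 : V / ⌈V / t⌉₊ ≤ t := by
    rw [div_le_iff₀ hkR]
    have := Nat.le_ceil (V / t)
    rw [div_le_iff₀ ht0] at this
    linarith
  have h3 := le_DD (hW.mono _ h2)
  rw [Finset.card_univ, card_cube] at hWc
  have h4 : (2 : ℝ) ^ n ≤ (V / t + 1) * DD n ⌈δ * n⌉₊ t := by
    have a1 : (2 : ℝ) ^ n ≤ ⌈V / t⌉₊ * W.card := by exact_mod_cast hWc
    have a2 : (⌈V / t⌉₊ : ℝ) ≤ V / t + 1 := (Nat.ceil_lt_add_one (div_pos hV0 ht0).le).le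
    have a3 : (W.card : ℝ) ≤ DD n ⌈δ * n⌉₊ t := by exact_mod_cast h3
    refine a1.trans (mul_le_mul a2 a3 (Nat.cast_nonneg _) ?_)
    have := div_pos hV0 ht0
    linarith
  obtain ⟨m, hm⟩ : ∃ m : ℝ, m = max (H δ - (1 - σ)) 0 := ⟨_, rfl⟩
  have h5 : V / t + 1 ≤ 2 * (2 : ℝ) ^ (m * n) := by
    have a1 : V / t = (2 : ℝ) ^ ((H δ - (1 - σ)) * n) := by
      rw [hV, ht, ← Real.rpow_sub (by norm_num)]
      congr 1
      ring
    have a2 : V / t ≤ (2 : ℝ) ^ (m * n) := by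
      rw [a1]
      apply Real.rpow_le_rpow_of_exponent_le (by norm_num)
      exact mul_le_mul_of_nonneg_right (by rw [hm]; exact le_max_left _ _) hnR.le
    have a3 : 1 ≤ (2 : ℝ) ^ (m * n) := by
      apply Real.one_le_rpow (by norm_num)
      exact mul_nonneg (by rw [hm]; exact le_max_right _ _) hnR.le
    linarith
  have hD0 : (0 : ℝ) < DD n ⌈δ * n⌉₊ t := by exact_mod_cast DD_pos ht0.le
  have h6 : (2 : ℝ) ^ n ≤ 2 * (2 : ℝ) ^ (m * n) * DD n ⌈δ * n⌉₊ t :=
    h4.trans (mul_le_mul_of_nonneg_right h5 hD0.le)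
  have h7 : (n : ℝ) ≤ 1 + m * n + Real.logb 2 (DD n ⌈δ * n⌉₊ t) := by
    have a1 := Real.logb_le_logb_of_le (by norm_num : (1 : ℝ) < 2) (by positivity) h6
    rw [Real.logb_mul (by positivity) hD0.ne', Real.logb_mul (by norm_num) (two_rpow_pos _).ne',
      Real.logb_rpow (by norm_num) (by norm_num), Real.logb_self_eq_one (by norm_num),
      ← Real.rpow_natCast, Real.logb_rpow (by norm_num) (by norm_num)] at a1
    exact a1
  unfold gg
  rw [← ht]
  have h8 : 1 - 1 / n - m ≤ Real.logb 2 (DD n ⌈δ * n⌉₊ t) / n := by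
    rw [le_div_iff₀ hnR]
    have : (1 - 1 / (n : ℝ) - m) * n = n - 1 - m * n := by
      field_simp
    linarith
  rcases le_total (H δ - (1 - σ)) 0 with g | g
  · rw [max_eq_right g] at hm
    rw [min_eq_left (by linarith)]
    linarith
  · rw [max_eq_left g] at hm
    rw [min_eq_right (by linarith)]
    linarith

lemma gg_le_self {n d : ℕ} (hn : 1 ≤ n) (σ : ℝ) : gg n d σ ≤ σ := by
  have hnR : (0 : ℝ) < n := by exact_mod_cast hn
  unfold gg
  have hD0 : (0 : ℝ) < DD n d ((2 : ℝ) ^ ((1 - σ) * n)) := by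
    exact_mod_cast DD_pos (two_rpow_pos _).le
  have h1 : (DD n d ((2 : ℝ) ^ ((1 - σ) * n)) : ℝ) ≤ 2 ^ n := by exact_mod_cast DD_le n d _
  have h2 : Real.logb 2 (DD n d ((2 : ℝ) ^ ((1 - σ) * n))) / n ≤ 1 := by
    rw [div_le_one hnR]
    have := Real.logb_le_logb_of_le (by norm_num : (1 : ℝ) < 2) hD0 h1
    rwa [← Real.rpow_natCast, Real.logb_rpow (by norm_num) (by norm_num)] at this
  linarith

end Pool.Agent.U121.RS
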