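import Mathlib
import Pool.Agent.U121.RS.Rate

/-!
U121/RS (helper121, MP_0430e4_lc): the asymptotic form of the spectral bound.
-/

set_option autoImplicit false
set_option linter.unusedSectionVars false

namespace Pool.Agent.U121.RS

open Finset Filter Pool.Agent.TH41.BL Pool.Agent.Y570.LS
open Pool.Agent.Results.MP_0430e4_lc.ConstantWeightCriterion (H H_eq' H_eq H_le_one H_cont volume
  weight tr weight_tr tr_inj logb_nonneg_nat)

lemma ev_ge (c : ℝ) : ∀ᶠ n : ℕ in atTop, c ≤ (n : ℝ) :=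
  tendsto_natCast_atTop_atTop.eventually_ge_atTop c

/-- binomial coefficients near `x n` -/
lemma choose_low {x : ℝ} (h0 : 0 < x) (h1 : x < 1) {ε : ℝ} (hε : 0 < ε) :
    ∃ η : ℝ, 0 < η ∧ ∀ᶠ n : ℕ in atTop, ∀ j : ℕ, |(j : ℝ) - x * n| ≤ η * n →
      (2 : ℝ) ^ ((H x - ε) * n) ≤ n.choose j := by
  have hc : ∀ᶠ y in nhds x, H x - ε / 2 < H y :=
    (H_cont.tendsto x).eventually (lt_mem_nhds (by linarith))
  obtain ⟨η₁, hη₁, hball⟩ := Metric.eventually_nhds_iff.1 hc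
  have hm : 0 < min x (1 - x) := lt_min h0 (by linarith)
  refine ⟨min (η₁ / 2) (min x (1 - x) / 2), lt_min (by positivity) (by positivity), ?_⟩
  filter_upwards [ev_growth (half_pos hε) 1 1, eventually_ge_atTop 1] with n hn hn1 j hj
  have hnR : (1 : ℝ) ≤ n := by exact_mod_cast hn1
  have hn0 : (0 : ℝ) < n := by linarith
  have hj1 : |(j : ℝ) - x * n| ≤ η₁ / 2 * n :=
    hj.trans (mul_le_mul_of_nonneg_right (min_le_left _ _) hn0.le)
  have hj2 : |(j : ℝ) - x * n| ≤ min x (1 - x) / 2 * n :=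
    hj.trans (mul_le_mul_of_nonneg_right (min_le_right _ _) hn0.le)
  rw [abs_le] at hj2
  have m1 : min x (1 - x) ≤ x := min_le_left _ _
  have m2 : min x (1 - x) ≤ 1 - x := min_le_right _ _
  have hjpos : (0 : ℝ) < j := by nlinarith
  have hjlt : (j : ℝ) < n := by nlinarith
  have hj3 : 1 ≤ j := by exact_mod_cast hjpos
  have hj4 : j < n := by exact_mod_cast hjlt
  have h2 := choose_ge hj3 hj4
  have h3 : H x - ε / 2 < H (j / n) := by
    apply hball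
    rw [Real.dist_eq]
    have e1 : (j : ℝ) / n - x = (j - x * n) / n := by field_simp
    rw [e1, abs_div, abs_of_pos hn0, div_lt_iff₀ hn0]
    nlinarith
  have h4 : (2 : ℝ) ^ (H (j / n) * n) = Real.exp (n * Real.binEntropy (j / n)) := by
    rw [Real.rpow_def_of_pos (by norm_num), ← H_eq]
    congr 1
    ring
  rw [← h4] at h2
  have h5 : (2 : ℝ) ^ ((H x - ε / 2) * n) ≤ (2 : ℝ) ^ (H (j / n) * n) := by
    apply Real.rpow_le_rpow_of_exponent_le (by norm_num)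
    exact mul_le_mul_of_nonneg_right h3.le hn0.le
  have h6 : (n : ℝ) + 1 ≤ (2 : ℝ) ^ (ε / 2 * n) := by nlinarith
  have hC : (0 : ℝ) ≤ n.choose j := Nat.cast_nonneg _
  have h7 : (2 : ℝ) ^ ((H x - ε) * n) * (2 : ℝ) ^ (ε / 2 * n) ≤
      (n.choose j : ℝ) * (2 : ℝ) ^ (ε / 2 * n) := by
    rw [← Real.rpow_add (by norm_num)]
    have e1 : (H x - ε) * n + ε / 2 * n = (H x - ε / 2) * n := by ring
    rw [e1]
    calc (2 : ℝ) ^ ((H x - ε / 2) * n) ≤ _ := h5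
      _ ≤ (n + 1) * (n.choose j : ℝ) := h2
      _ ≤ (2 : ℝ) ^ (ε / 2 * n) * (n.choose j : ℝ) := mul_le_mul_of_nonneg_right h6 hC
      _ = _ := by ring
  exact le_of_mul_le_mul_right h7 (two_rpow_pos _)

/-- half of the difference between the exponent of the first linear programming bound and the
exponent of the bound of Gilbert and Varshamov -/
noncomputable def cc (δ : ℝ) : ℝ := (H δ + H (1 / 2 - √(δ * (1 - δ))) - 1) / 2

lemma cc_pos {δ : ℝ} (h0 : 0 < δ) (h1 : δ < 1 / 2) : 0 < cc δ := by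
  have hlog : 0 < Real.log 2 := Real.log_pos (by norm_num)
  have h := gain_pos h0 h1
  unfold cc
  rw [H_eq', H_eq']
  have e : (Real.binEntropy δ / Real.log 2 + Real.binEntropy (1 / 2 - √(δ * (1 - δ))) /
      Real.log 2 - 1) / 2 = (Real.binEntropy (1 / 2 - √(δ * (1 - δ))) + Real.binEntropy δ -
      Real.log 2) / Real.log 2 / 2 := by
    field_simp
    ring
  rw [e]
  have : 0 < Real.binEntropy (1 / 2 - √(δ * (1 - δ))) + Real.binEntropy δ - Real.log 2 := by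
    linarith
  positivity

theorem gg_upper {δ : ℝ} (h0 : 0 < δ) (h1 : δ < 1 / 2) {ε : ℝ} (hε : 0 < ε) :
    ∀ᶠ n : ℕ in atTop, ∀ σ : ℝ, gg n ⌈δ * n⌉₊ σ ≤ max (1 - H δ) (σ - cc δ) + ε := by
  obtain ⟨s, hs⟩ : ∃ s : ℝ, s = √(δ * (1 - δ)) := ⟨_, rfl⟩
  have hprod : 0 < δ * (1 - δ) := mul_pos h0 (by linarith)
  have hs0 : 0 < s := by rw [hs]; exact Real.sqrt_pos.2 hprod
  have hss : s ^ 2 = δ * (1 - δ) := by rw [hs, Real.sq_sqrt hprod.le]
  have hs1 : s < 1 / 2 := by nlinarith [sq_nonneg (1 - 2 * δ)]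
  obtain ⟨ξ, hξ⟩ : ∃ ξ : ℝ, ξ = 1 / 2 - s := ⟨_, rfl⟩
  have hξ0 : 0 < ξ := by linarith
  have hξ1 : ξ < 1 / 2 := by linarith
  obtain ⟨η₁, hη₁, ev1⟩ := choose_low h0 (by linarith) (by positivity : 0 < ε / 4)
  obtain ⟨η₂, hη₂, ev2⟩ := choose_low hξ0 (by linarith) (by positivity : 0 < ε / 4)
  obtain ⟨η, hη⟩ : ∃ η : ℝ, η = min (η₂ / 2) (ξ / 2) := ⟨_, rfl⟩
  have hη0 : 0 < η := by rw [hη]; exact lt_min (by positivity) (by positivity)
  have hηa : η ≤ η₂ / 2 := by rw [hη]; exact min_le_left _ _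
  have hηb : η ≤ ξ / 2 := by rw [hη]; exact min_le_right _ _
  filter_upwards [ev1, ev2, ev_ge (2 / η₁), ev_ge (2 / η₂), ev_ge (δ / η ^ 2), ev_ge (4 / δ),
    ev_ge (2 / ε), eventually_ge_atTop 1] with n g1 g2 g3 g4 g5 g6 g7 g8 σ
  have hnR : (1 : ℝ) ≤ n := by exact_mod_cast g8
  have hn0 : (0 : ℝ) < n := by linarith
  rw [div_le_iff₀ hη₁] at g3
  rw [div_le_iff₀ hη₂] at g4
  rw [div_le_iff₀ (by positivity)] at g5
  rw [div_le_iff₀ h0] at g6
  obtain ⟨d, hd⟩ : ∃ d : ℕ, d = ⌈δ * n⌉₊ := ⟨_, rfl⟩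
  rw [← hd]
  have hd1 : δ * n ≤ d := by rw [hd]; exact Nat.le_ceil _
  have hd2 : (d : ℝ) < δ * n + 1 := by rw [hd]; exact Nat.ceil_lt_add_one (by positivity)
  have hd3 : 4 ≤ d := by
    have : (4 : ℝ) ≤ d := by linarith
    exact_mod_cast this
  -- an even number below `d`
  obtain ⟨r, hrev, hr1, hr2⟩ : ∃ r : ℕ, Even r ∧ r + 1 ≤ d ∧ d ≤ r + 2 := by
    rcases Nat.even_or_odd d with he | ho
    · obtain ⟨k, hk⟩ := he
      exact ⟨d - 2, ⟨k - 1, by omega⟩, by omega, by omega⟩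
    · obtain ⟨k, hk⟩ := ho
      exact ⟨d - 1, ⟨k, by omega⟩, by omega, by omega⟩
  have hr1R : (r : ℝ) + 1 ≤ d := by exact_mod_cast hr1
  have hr2R : (d : ℝ) ≤ r + 2 := by exact_mod_cast hr2
  have hr3 : 2 * r ≤ n := by
    have : 2 * (r : ℝ) ≤ n := by nlinarith
    exact_mod_cast this
  obtain ⟨j₀, hj₀⟩ : ∃ j₀ : ℕ, j₀ = ⌊(ξ - η) * n⌋₊ := ⟨_, rfl⟩
  have hx0 : 0 ≤ (ξ - η) * n := by
    apply mul_nonneg _ hn0.le
    linarith
  have hj1 : (j₀ : ℝ) ≤ (ξ - η) * n := by rw [hj₀]; exact Nat.floor_le hx0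
  have hj2 : (ξ - η) * n < j₀ + 1 := by rw [hj₀]; exact Nat.lt_floor_add_one _
  have hj3 : 2 * j₀ ≤ n := by
    have : 2 * (j₀ : ℝ) ≤ n := by nlinarith
    exact_mod_cast this
  have hcond : ∀ j : ℕ, j < j₀ → ∀ w : ℕ, w + 2 ≤ r →
      4 * (((w : ℝ) + 1) * ((n : ℝ) - w)) ≤ ((n : ℝ) - 2 * j) ^ 2 := by
    intro j hj w hw
    have a1 : (j : ℝ) ≤ (ξ - η) * n := by
      have : (j : ℝ) ≤ j₀ := by exact_mod_cast hj.le
      linarith
    have a2 : (2 * s + 2 * η) * n ≤ (n : ℝ) - 2 * j := by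
      have e : (2 * s + 2 * η) * n = n - 2 * ((ξ - η) * n) := by rw [hξ]; ring
      rw [e]
      linarith
    have a3 : ((2 * s + 2 * η) * n) ^ 2 ≤ ((n : ℝ) - 2 * j) ^ 2 :=
      pow_le_pow_left₀ (by positivity) a2 2
    have a4 : (w : ℝ) + 2 ≤ r := by exact_mod_cast hw
    have a5 : (w : ℝ) + 1 ≤ δ * n := by linarith
    have a6 : ((w : ℝ) + 1) * ((n : ℝ) - w) ≤ δ * n * (n + 1 - δ * n) := by
      have e : δ * n * (n + 1 - δ * n) - ((w : ℝ) + 1) * ((n : ℝ) - w) =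
          (δ * n - (w + 1)) * (n + 1 - δ * n - (w + 1)) := by ring
      have e2 : 0 ≤ (δ * n - ((w : ℝ) + 1)) * (n + 1 - δ * n - (w + 1)) := by
        apply mul_nonneg
        · linarith
        · nlinarith
      linarith
    have a7 : δ * n * (n + 1 - δ * n) = s ^ 2 * n ^ 2 + δ * n := by rw [hss]; ring
    have a8 : δ * (n : ℝ) ≤ η ^ 2 * n ^ 2 := by nlinarith
    have a9 : 0 ≤ 8 * (s * η) * (n : ℝ) ^ 2 := by positivity
    have a10 : ((2 * s + 2 * η) * n) ^ 2 =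
        4 * (s ^ 2 * n ^ 2) + 8 * (s * η) * (n : ℝ) ^ 2 + 4 * (η ^ 2 * n ^ 2) := by ring
    linarith
  obtain ⟨t, ht⟩ : ∃ t : ℝ, t = (2 : ℝ) ^ ((1 - σ) * n) := ⟨_, rfl⟩
  have ht0 : 0 < t := by rw [ht]; exact two_rpow_pos _
  obtain ⟨W, hW, hWc⟩ := exists_DD n d t
  have hsp := spectral hrev (by omega) hr3 (by omega) hj3 hcond ht0.le hW
  rw [hWc] at hsp
  -- binomial coefficients
  have c1 := g1 r (by
    rw [abs_le]
    constructor <;> linarith)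
  have hηn : η * n ≤ η₂ / 2 * n := mul_le_mul_of_nonneg_right hηa hn0.le
  have hηn0 : 0 ≤ η * n := by positivity
  have hxe : (ξ - η) * n = ξ * n - η * n := by ring
  rw [hxe] at hj1 hj2
  have c2 := g2 j₀ (by
    rw [abs_le]
    constructor <;> linarith)
  obtain ⟨A, hA⟩ : ∃ A : ℝ, A = (2 : ℝ) ^ ((H δ - ε / 4) * n) := ⟨_, rfl⟩
  obtain ⟨B, hB⟩ : ∃ B : ℝ, B = (2 : ℝ) ^ ((H ξ - ε / 4) * n) := ⟨_, rfl⟩
  rw [← hA] at c1
  rw [← hB] at c2
  have hA0 : 0 < A := by rw [hA]; exact two_rpow_pos _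
  have hB0 : 0 < B := by rw [hB]; exact two_rpow_pos _
  obtain ⟨a, ha⟩ : ∃ a : ℝ, a = (n.choose r : ℝ) := ⟨_, rfl⟩
  obtain ⟨b, hb⟩ : ∃ b : ℝ, b = (n.choose j₀ : ℝ) := ⟨_, rfl⟩
  rw [← ha] at c1 hsp
  rw [← hb] at c2 hsp
  have ha0 : 0 < a := hA0.trans_le c1
  have hb0 : 0 < b := hB0.trans_le c2
  have h2n : (0 : ℝ) < 2 ^ n := by positivity
  have h3 : (DD n d t : ℝ) ≤ 2 ^ n * t / A + 2 ^ n * √(2 ^ n / (A * B)) := by
    have e1 : √(2 ^ n * a / b) = a * √(2 ^ n / (a * b)) := by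
      have e2 : (2 : ℝ) ^ n * a / b = a ^ 2 * (2 ^ n / (a * b)) := by
        field_simp
      rw [e2, Real.sqrt_mul (sq_nonneg a), Real.sqrt_sq ha0.le]
    rw [e1] at hsp
    have e3 : (DD n d t : ℝ) ≤ 2 ^ n * t / a + 2 ^ n * √(2 ^ n / (a * b)) := by
      rw [← le_div_iff₀ ha0] at hsp
      refine hsp.trans (le_of_eq ?_)
      field_simp
    refine e3.trans (add_le_add ?_ ?_)
    · exact div_le_div_of_nonneg_left (by positivity) hA0 c1
    · refine mul_le_mul_of_nonneg_left ?_ h2n.le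
      apply Real.sqrt_le_sqrt
      exact div_le_div_of_nonneg_left h2n.le (mul_pos hA0 hB0)
        (mul_le_mul c1 c2 hB0.le ha0.le)
  obtain ⟨M, hM⟩ : ∃ M : ℝ, M = max (2 - σ - H δ) (1 + (1 - H δ - H ξ) / 2) := ⟨_, rfl⟩
  have hMa : 2 - σ - H δ ≤ M := by rw [hM]; exact le_max_left _ _
  have hMb : 1 + (1 - H δ - H ξ) / 2 ≤ M := by rw [hM]; exact le_max_right _ _
  have h4 : 2 ^ n * t / A ≤ (2 : ℝ) ^ ((M + ε / 4) * n) := by
    rw [← Real.rpow_natCast 2 n, ht, hA, ← Real.rpow_add (by norm_num),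
      ← Real.rpow_sub (by norm_num)]
    apply Real.rpow_le_rpow_of_exponent_le (by norm_num)
    have e1 : (n : ℝ) + (1 - σ) * n - (H δ - ε / 4) * n = (2 - σ - H δ + ε / 4) * n := by ring
    rw [e1]
    exact mul_le_mul_of_nonneg_right (by linarith) hn0.le
  have h5 : 2 ^ n * √(2 ^ n / (A * B)) ≤ (2 : ℝ) ^ ((M + ε / 4) * n) := by
    have e1 : (2 : ℝ) ^ n / (A * B) = ((2 : ℝ) ^ ((1 - H δ - H ξ + ε / 2) / 2 * n)) ^ 2 := by
      rw [hA, hB, ← Real.rpow_natCast 2 n, ← Real.rpow_add (by norm_num),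
        ← Real.rpow_sub (by norm_num), ← Real.rpow_natCast, ← Real.rpow_mul (by norm_num)]
      congr 1
      push_cast
      ring
    rw [e1, Real.sqrt_sq (two_rpow_pos _).le, ← Real.rpow_natCast 2 n,
      ← Real.rpow_add (by norm_num)]
    apply Real.rpow_le_rpow_of_exponent_le (by norm_num)
    have e2 : (n : ℝ) + (1 - H δ - H ξ + ε / 2) / 2 * n =
        (1 + (1 - H δ - H ξ) / 2 + ε / 4) * n := by ring
    rw [e2]
    exact mul_le_mul_of_nonneg_right (by linarith) hn0.le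
  have hD0 : (0 : ℝ) < DD n d t := by exact_mod_cast DD_pos ht0.le
  have h6 : (DD n d t : ℝ) ≤ 2 * (2 : ℝ) ^ ((M + ε / 4) * n) := by linarith
  have h7 : Real.logb 2 (DD n d t) ≤ 1 + (M + ε / 4) * n := by
    have a1 := Real.logb_le_logb_of_le (by norm_num : (1 : ℝ) < 2) hD0 h6
    rw [Real.logb_mul (by norm_num) (two_rpow_pos _).ne', Real.logb_self_eq_one (by norm_num),
      Real.logb_rpow (by norm_num) (by norm_num)] at a1
    exact a1
  unfold gg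
  rw [← ht]
  have h8 : Real.logb 2 (DD n d t) / n ≤ M + ε := by
    rw [div_le_iff₀ hn0]
    rw [div_le_iff₀ hε] at g7
    have e1 : (M + ε) * n = (M + ε / 4) * n + 3 / 4 * (n * ε) := by ring
    linarith
  have h9 : M - (1 - σ) = max (1 - H δ) (σ - cc δ) := by
    have e1 : cc δ = (H δ + H ξ - 1) / 2 := by
      unfold cc
      rw [hξ, hs]
    rw [hM, e1, ← max_sub_sub_right]
    congr 1
    · ring
    · ring
  linarith

end Pool.Agent.U121.RS
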