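import Mathlib
import Pool.Agent.U121.RS.Upper

/-!
U121/RS (helper121, MP_0430e4_lc): assembly.
-/

set_option autoImplicit false
set_option linter.unusedSectionVars false

namespace Pool.Agent.U121.RS

open Finset Filter
open Pool.Agent.Results.MP_0430e4_lc.ConstantWeightCriterion (A R H H_eq' H_eq H_le_one H_cont volume
  weight tr weight_tr tr_inj logb_nonneg_nat exists_A A_bdd card_le_A A_pos IsCode rateA bdd_le
  bdd_ge)

/-- the exponent in the limit -/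
noncomputable def RR (δ σ : ℝ) : ℝ := limsup (fun n : ℕ => gg n ⌈δ * n⌉₊ σ) atTop

lemma gg_nonneg {n d : ℕ} {σ : ℝ} (hn : 1 ≤ n) (h0 : 0 ≤ σ) : 0 ≤ gg n d σ := by
  have hnR : (0 : ℝ) < n := by exact_mod_cast hn
  have h2 := one_le_pD (n := n) (d := d) h0
  rw [pD_eq hn] at h2
  by_contra hcon
  push Not at hcon
  have h3 : (2 : ℝ) ^ (gg n d σ * n) < 1 :=
    Real.rpow_lt_one_of_one_lt_of_neg (by norm_num) (mul_neg_of_neg_of_pos hcon hnR)
  linarith

lemma gg_bdd_le (δ σ : ℝ) : IsBoundedUnder (· ≤ ·) atTop (fun n : ℕ => gg n ⌈δ * n⌉₊ σ) := by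
  refine ⟨σ, ?_⟩
  rw [eventually_map]
  filter_upwards [eventually_ge_atTop 1] with n hn
  exact gg_le_self hn σ

lemma gg_bdd_ge {σ : ℝ} (δ : ℝ) (h0 : 0 ≤ σ) :
    IsBoundedUnder (· ≥ ·) atTop (fun n : ℕ => gg n ⌈δ * n⌉₊ σ) := by
  refine ⟨0, ?_⟩
  rw [eventually_map]
  filter_upwards [eventually_ge_atTop 1] with n hn
  exact gg_nonneg hn h0

lemma RR_le {δ σ c : ℝ} (h0 : 0 ≤ σ)
    (h : ∀ ε : ℝ, 0 < ε → ∀ᶠ n : ℕ in atTop, gg n ⌈δ * n⌉₊ σ ≤ c + ε) : RR δ σ ≤ c := by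
  refine le_of_forall_pos_le_add fun ε hε => ?_
  exact limsup_le_of_le (gg_bdd_ge δ h0).isCoboundedUnder_flip (h ε hε)

lemma ev_one_div {ε : ℝ} (hε : 0 < ε) : ∀ᶠ n : ℕ in atTop, 1 / (n : ℝ) ≤ ε := by
  filter_upwards [(tendsto_const_div_atTop_nhds_zero_nat (1 : ℝ)).eventually
    (gt_mem_nhds hε)] with n hn
  exact hn.le

lemma gg_mono {n d : ℕ} (hn : 1 ≤ n) {σ σ' : ℝ} (h : σ ≤ σ') :
    gg n d σ ≤ gg n d σ' + 1 / n := by
  have hnR : (0 : ℝ) < n := by exact_mod_cast hn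
  obtain ⟨t, ht⟩ : ∃ t : ℝ, t = (2 : ℝ) ^ ((1 - σ') * n) := ⟨_, rfl⟩
  obtain ⟨L, hL⟩ : ∃ L : ℝ, L = (2 : ℝ) ^ ((σ' - σ) * n) := ⟨_, rfl⟩
  have ht0 : 0 < t := by rw [ht]; exact two_rpow_pos _
  have hL1 : 1 ≤ L := by
    rw [hL]
    apply Real.one_le_rpow (by norm_num)
    exact mul_nonneg (by linarith) hnR.le
  have hLt : (2 : ℝ) ^ ((1 - σ) * n) = L * t := by
    rw [hL, ht, ← Real.rpow_add (by norm_num)]
    congr 1
    ring
  obtain ⟨W, hW, hWc⟩ := exists_DD n d (L * t)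
  have hk : 0 < ⌈L⌉₊ := Nat.ceil_pos.2 (by linarith)
  have hkR : (0 : ℝ) < ⌈L⌉₊ := by exact_mod_cast hk
  obtain ⟨W', -, hW', hWc'⟩ := lovasz (near (n := n) d) (near_symm _) (near_irrefl _) W hW
    ⌈L⌉₊ hk
  have h2 : L * t / ⌈L⌉₊ ≤ t := by
    rw [div_le_iff₀ hkR]
    have := Nat.le_ceil L
    nlinarith
  have h3 := le_DD (hW'.mono _ h2)
  rw [hWc] at hWc'
  have h4 : (DD n d (L * t) : ℝ) ≤ 2 * L * DD n d t := by
    have a1 : (DD n d (L * t) : ℝ) ≤ ⌈L⌉₊ * W'.card := by exact_mod_cast hWc'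
    have a2 : (⌈L⌉₊ : ℝ) ≤ 2 * L := by
      have := (Nat.ceil_lt_add_one (by linarith : 0 ≤ L)).le
      linarith
    have a3 : (W'.card : ℝ) ≤ DD n d t := by exact_mod_cast h3
    exact a1.trans (mul_le_mul a2 a3 (Nat.cast_nonneg _) (by linarith))
  have hD0 : (0 : ℝ) < DD n d (L * t) := by exact_mod_cast DD_pos (by positivity)
  have hD1 : (0 : ℝ) < DD n d t := by exact_mod_cast DD_pos ht0.le
  have h5 := Real.logb_le_logb_of_le (by norm_num : (1 : ℝ) < 2) hD0 h4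
  rw [Real.logb_mul (by positivity) hD1.ne', Real.logb_mul (by norm_num) (by positivity),
    Real.logb_self_eq_one (by norm_num), hL, Real.logb_rpow (by norm_num) (by norm_num),
    ← hL] at h5
  unfold gg
  rw [hLt, ← ht]
  have h6 : Real.logb 2 (DD n d (L * t)) / n ≤ 1 / n + (σ' - σ) +
      Real.logb 2 (DD n d t) / n := by
    rw [div_le_iff₀ hnR]
    have e : (1 / (n : ℝ) + (σ' - σ) + Real.logb 2 (DD n d t) / n) * n =
        1 + (σ' - σ) * n + Real.logb 2 (DD n d t) := by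
      field_simp
    linarith
  linarith

lemma gg_lip {n d : ℕ} {σ σ' : ℝ} (h : σ ≤ σ') :
    gg n d σ' ≤ gg n d σ + (σ' - σ) := by
  have hnR : (0 : ℝ) ≤ n := Nat.cast_nonneg n
  unfold gg
  have h1 : (2 : ℝ) ^ ((1 - σ') * n) ≤ (2 : ℝ) ^ ((1 - σ) * n) := by
    apply Real.rpow_le_rpow_of_exponent_le (by norm_num)
    nlinarith
  have h2 : (DD n d ((2 : ℝ) ^ ((1 - σ') * n)) : ℝ) ≤ DD n d ((2 : ℝ) ^ ((1 - σ) * n)) := by
    exact_mod_cast DD_mono h1
  have h3 : (0 : ℝ) < DD n d ((2 : ℝ) ^ ((1 - σ') * n)) := by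
    exact_mod_cast DD_pos (two_rpow_pos _).le
  have h4 := Real.logb_le_logb_of_le (by norm_num : (1 : ℝ) < 2) h3 h2
  have h5 := div_le_div_of_nonneg_right h4 hnR
  linarith

lemma RR_mono {δ σ σ' : ℝ} (h0 : 0 ≤ σ) (h : σ ≤ σ') : RR δ σ ≤ RR δ σ' := by
  refine RR_le h0 fun ε hε => ?_
  have h1 : ∀ᶠ n : ℕ in atTop, gg n ⌈δ * n⌉₊ σ' < RR δ σ' + ε / 2 :=
    eventually_lt_of_limsup_lt (by unfold RR; linarith) (gg_bdd_le δ σ')
  filter_upwards [h1, ev_one_div (half_pos hε), eventually_ge_atTop 1] with n a b c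
  have := gg_mono (d := ⌈δ * n⌉₊) c h
  linarith

lemma RR_lip {δ σ σ' : ℝ} (h0 : 0 ≤ σ) (h : σ ≤ σ') : RR δ σ' ≤ RR δ σ + (σ' - σ) := by
  refine RR_le (h0.trans h) fun ε hε => ?_
  have h1 : ∀ᶠ n : ℕ in atTop, gg n ⌈δ * n⌉₊ σ < RR δ σ + ε :=
    eventually_lt_of_limsup_lt (by unfold RR; linarith) (gg_bdd_le δ σ)
  filter_upwards [h1] with n a
  have := gg_lip (n := n) (d := ⌈δ * n⌉₊) h
  linarith

/-! ### comparison with `A(n, d)` -/

lemma A_le_DD (n d : ℕ) {t : ℝ} (ht : 0 ≤ t) : A n d ≤ DD n d t := by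
  obtain ⟨C, hC, hc⟩ := exists_A n d
  rw [← hc]
  apply le_DD
  intro v hv
  have h1 : C.filter (fun y => near d v y) = ∅ := by
    rw [Finset.filter_eq_empty_iff]
    intro y hy hvy
    have := hC v hv y hy hvy.1.symm
    have := hvy.2
    omega
  rw [h1, Finset.card_empty, Nat.cast_zero]
  exact ht

lemma DD_one_le (n d : ℕ) : DD n d 1 ≤ 2 * A n d := by
  obtain ⟨W, hW, hWc⟩ := exists_DD n d 1
  obtain ⟨W', -, hW', hWc'⟩ := lovasz (near (n := n) d) (near_symm _) (near_irrefl _) W hW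
    2 (by norm_num)
  rw [hWc] at hWc'
  refine hWc'.trans (Nat.mul_le_mul_left _ ?_)
  apply card_le_A
  intro x hx y hy hxy
  by_contra hcon
  push Not at hcon
  have h1 := hW' x hx
  have h2 : 0 < (W'.filter (fun z => near d x z)).card :=
    Finset.card_pos.2 ⟨y, Finset.mem_filter.2 ⟨hy, hxy.symm, hcon⟩⟩
  have h3 : (1 : ℝ) ≤ (W'.filter (fun z => near d x z)).card := by exact_mod_cast h2
  push_cast at h1
  linarith

lemma gg_one_bounds {n d : ℕ} (hn : 1 ≤ n) : Real.logb 2 (A n d) / n ≤ gg n d 1 ∧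
    gg n d 1 ≤ Real.logb 2 (A n d) / n + 1 / n := by
  have hnR : (0 : ℝ) < n := by exact_mod_cast hn
  have hA : (0 : ℝ) < A n d := by exact_mod_cast A_pos n d
  have hD : (0 : ℝ) < DD n d 1 := by exact_mod_cast DD_pos zero_le_one
  have e : gg n d 1 = Real.logb 2 (DD n d 1) / n := by
    unfold gg
    rw [sub_self, zero_mul, Real.rpow_zero, sub_zero]
  rw [e]
  constructor
  · apply div_le_div_of_nonneg_right _ hnR.le
    apply Real.logb_le_logb_of_le (by norm_num) hA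
    exact_mod_cast A_le_DD n d zero_le_one
  · rw [← add_div]
    apply div_le_div_of_nonneg_right _ hnR.le
    have h1 : (DD n d 1 : ℝ) ≤ 2 * A n d := by exact_mod_cast DD_one_le n d
    have h2 := Real.logb_le_logb_of_le (by norm_num : (1 : ℝ) < 2) hD h1
    rw [Real.logb_mul (by norm_num) hA.ne', Real.logb_self_eq_one (by norm_num)] at h2
    linarith

lemma RR_one (δ : ℝ) : RR δ 1 = R δ := by
  apply le_antisymm
  · refine RR_le zero_le_one fun ε hε => ?_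
    have h1 : ∀ᶠ n : ℕ in atTop, Real.logb 2 (A n ⌈δ * n⌉₊) / n < R δ + ε / 2 :=
      eventually_lt_of_limsup_lt (by unfold R; linarith) (bdd_le (rateA δ))
    filter_upwards [h1, ev_one_div (half_pos hε), eventually_ge_atTop 1] with n a b c
    have := (gg_one_bounds (d := ⌈δ * n⌉₊) c).2
    linarith
  · unfold R
    refine le_of_forall_pos_le_add fun ε hε => ?_
    refine limsup_le_of_le (bdd_ge (rateA δ)).isCoboundedUnder_flip ?_
    have h1 : ∀ᶠ n : ℕ in atTop, gg n ⌈δ * n⌉₊ 1 < RR δ 1 + ε :=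
      eventually_lt_of_limsup_lt (by unfold RR; linarith) (gg_bdd_le δ 1)
    filter_upwards [h1, eventually_ge_atTop 1] with n a c
    have := (gg_one_bounds (d := ⌈δ * n⌉₊) c).1
    linarith

lemma AA_le_A {n : ℕ} (S : Finset (Fin n → Bool)) (d : ℕ) : AA S d ≤ A n d := by
  obtain ⟨I, -, hI, hc⟩ := exists_AA S d
  rw [← hc]
  exact card_le_A ((indep_iff d I).1 hI)

/-! ### the values -/

/-- the end of the interval -/
noncomputable def sst (δ : ℝ) : ℝ := (1 - H δ + H (1 / 2 - √(δ * (1 - δ)))) / 2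

lemma sst_eq (δ : ℝ) : sst δ = 1 - H δ + cc δ := by
  unfold sst cc
  ring

lemma H_pos {δ : ℝ} (h0 : 0 < δ) (h1 : δ < 1 / 2) : 0 < H δ := by
  rw [H_eq']
  exact div_pos (Real.binEntropy_pos h0 (by linarith)) (Real.log_pos (by norm_num))

lemma sst_lt_one {δ : ℝ} (h0 : 0 < δ) (h1 : δ < 1 / 2) : sst δ < 1 := by
  have a := H_pos h0 h1
  have b := H_le_one (1 / 2 - √(δ * (1 - δ)))
  unfold sst
  linarith

theorem gg_value {δ : ℝ} (h0 : 0 < δ) (h1 : δ < 1 / 2) {ε : ℝ} (hε : 0 < ε) :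
    ∀ᶠ n : ℕ in atTop, ∀ σ : ℝ, σ ≤ sst δ → |gg n ⌈δ * n⌉₊ σ - min σ (1 - H δ)| ≤ ε := by
  filter_upwards [gg_upper h0 h1 hε, ev_one_div hε, eventually_ge_atTop 1] with n a b c σ hσ
  have h2 := a σ
  have h3 := gg_lower h0 h1.le c σ
  have h4 := gg_le_self (d := ⌈δ * n⌉₊) c σ
  rw [sst_eq] at hσ
  rw [max_eq_left (by linarith)] at h2
  rw [abs_le]
  constructor
  · linarith
  · rcases le_total σ (1 - H δ) with g | g
    · rw [min_eq_left g]
      linarith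
    · rw [min_eq_right g]
      linarith

theorem conc_value {δ : ℝ} (h0 : 0 < δ) (h1 : δ < 1 / 2) {ε : ℝ} (hε : 0 < ε) :
    ∃ n₀ : ℕ, ∀ n ≥ n₀, ∀ σ : ℝ, 0 ≤ σ → σ ≤ sst δ →
      1 - ε ≤ prob ((2 : ℝ) ^ ((σ - 1) * n)) (fun S : Finset (Fin n → Bool) =>
        |Real.logb 2 (AA S ⌈δ * n⌉₊) / n - min σ (1 - H δ)| ≤ ε) := by
  obtain ⟨n₁, hn₁⟩ := conc (half_pos hε)
  obtain ⟨n₂, hn₂⟩ := eventually_atTop.1 (gg_value h0 h1 (half_pos hε))
  refine ⟨max n₁ n₂, fun n hn σ g0 g1 => ?_⟩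
  have hσ1 : σ ≤ 1 := g1.trans (sst_lt_one h0 h1).le
  have h2 := hn₁ n (le_trans (le_max_left _ _) hn) ⌈δ * n⌉₊ σ g0 hσ1
  have h3 := hn₂ n (le_trans (le_max_right _ _) hn) σ g1
  have hp1 : (2 : ℝ) ^ ((σ - 1) * n) ≤ 1 := by
    apply Real.rpow_le_one_of_one_le_of_nonpos (by norm_num)
    have : (0 : ℝ) ≤ n := Nat.cast_nonneg n
    nlinarith
  refine le_trans (by linarith) (h2.trans (prob_mono (two_rpow_pos _).le hp1 ?_))
  intro S hS
  rw [abs_le] at hS h3 ⊢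
  constructor <;> linarith

/-! ### the criterion -/

lemma prob_true {V : Type*} [DecidableEq V] [Fintype V] {p : ℝ} {E : Finset V → Prop}
    (h : ∀ S, E S) : prob p E = 1 := by
  unfold prob
  rw [← sum_wt_all (V := V) p]
  refine Finset.sum_congr rfl fun S _ => ?_
  rw [if_pos (h S)]

lemma exists_both {V : Type*} [DecidableEq V] [Fintype V] {p : ℝ} (h0 : 0 ≤ p) (h1 : p ≤ 1)
    {E F : Finset V → Prop} (hE : 1 / 2 < prob p E) (hF : 1 / 2 ≤ prob p F) : ∃ S, E S ∧ F S := by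
  by_contra hcon
  push Not at hcon
  have h2 : prob p F ≤ prob p (fun S => ¬ E S) := prob_mono h0 h1 fun S hS hES => hcon S hES hS
  rw [prob_not] at h2
  linarith

theorem criterion {δ : ℝ} (h0 : 0 < δ) (h1 : δ < 1 / 2) :
    R δ = 1 - H δ ↔ ∀ σ : ℝ, 0 < σ → σ < 1 → ∀ ε : ℝ, 0 < ε →
      Tendsto (fun n : ℕ => prob ((2 : ℝ) ^ ((σ - 1) * n)) (fun S : Finset (Fin n → Bool) =>
        Real.logb 2 (AA S ⌈δ * n⌉₊) / n ≤ 1 - H δ + ε)) atTop (nhds 1) := by
  constructor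
  · intro hR σ _ _ ε hε
    have h2 : ∀ᶠ n : ℕ in atTop, Real.logb 2 (A n ⌈δ * n⌉₊) / n < R δ + ε :=
      eventually_lt_of_limsup_lt (by unfold R; linarith) (bdd_le (rateA δ))
    refine tendsto_const_nhds.congr' ?_
    filter_upwards [h2] with n hn
    refine (prob_true fun S => ?_).symm
    rw [← hR]
    refine le_trans ?_ hn.le
    apply div_le_div_of_nonneg_right _ (Nat.cast_nonneg n)
    rcases Nat.eq_zero_or_pos (AA S ⌈δ * n⌉₊) with h | h
    · rw [h, Nat.cast_zero, Real.logb_zero]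
      exact logb_nonneg_nat _
    · apply Real.logb_le_logb_of_le (by norm_num) (by exact_mod_cast h)
      exact_mod_cast AA_le_A S _
  · intro h
    apply le_antisymm
    · refine le_of_forall_pos_le_add fun ε hε => ?_
      -- a density close to one
      obtain ⟨σ, hσ0, hσ1, hσε⟩ : ∃ σ : ℝ, 0 < σ ∧ σ < 1 ∧ 1 - σ ≤ ε / 3 := by
        refine ⟨max (1 / 2) (1 - ε / 3), ?_, ?_, ?_⟩
        · exact lt_of_lt_of_le (by norm_num) (le_max_left _ _)
        · exact max_lt (by norm_num) (by linarith)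
        · have := le_max_right (1 / 2) (1 - ε / 3)
          linarith
      have h2 : RR δ σ ≤ 1 - H δ + 2 * (ε / 3) := by
        refine limsup_le_of_le (gg_bdd_ge δ hσ0.le).isCoboundedUnder_flip ?_
        obtain ⟨n₀, hn₀⟩ := conc (ε := min (ε / 3) (1 / 4)) (lt_min (by positivity) (by norm_num))
        have h3 := (h σ hσ0 hσ1 (ε / 3) (by positivity)).eventually
          (lt_mem_nhds (by norm_num : (1 / 2 : ℝ) < 1))
        filter_upwards [h3, eventually_ge_atTop n₀] with n g1 g2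
        have g3 := hn₀ n g2 ⌈δ * n⌉₊ σ hσ0.le hσ1.le
        have hp1 : (2 : ℝ) ^ ((σ - 1) * n) ≤ 1 := by
          apply Real.rpow_le_one_of_one_le_of_nonpos (by norm_num)
          have : (0 : ℝ) ≤ n := Nat.cast_nonneg n
          nlinarith
        have m1 := min_le_left (ε / 3) (1 / 4 : ℝ)
        have m2 := min_le_right (ε / 3) (1 / 4 : ℝ)
        obtain ⟨S, s1, s2⟩ := exists_both (two_rpow_pos _).le hp1 g1 (le_trans (by linarith) g3)
        rw [abs_le] at s2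
        linarith
      rw [← RR_one]
      have h4 := RR_lip (δ := δ) hσ0.le hσ1.le
      linarith
    · rw [← RR_one]
      refine le_of_forall_pos_le_add fun ε hε => ?_
      have h2 : ∀ᶠ n : ℕ in atTop, gg n ⌈δ * n⌉₊ 1 < RR δ 1 + ε / 2 :=
        eventually_lt_of_limsup_lt (by unfold RR; linarith) (gg_bdd_le δ 1)
      obtain ⟨n, a, b, c⟩ := (h2.and ((ev_one_div (half_pos hε)).and
        (eventually_ge_atTop 1))).exists
      have h3 := gg_lower h0 h1.le c 1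
      have h4 := H_pos h0 h1
      rw [min_eq_right (by linarith)] at h3
      linarith

theorem RR_upper {δ : ℝ} (h0 : 0 < δ) (h1 : δ < 1 / 2) {σ : ℝ} (hσ : 0 ≤ σ) :
    RR δ σ ≤ max (1 - H δ) (σ - cc δ) := by
  refine RR_le hσ fun ε hε => ?_
  filter_upwards [gg_upper h0 h1 hε] with n hn
  exact hn σ

end Pool.Agent.U121.RS
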